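import Mathlib

open Finset

namespace R72.Cyc

/-- `c` is a cycle with `m` vertices in the relation `A`, written as an `m`-periodic sequence. -/
def IsCyc {V : Type*} (A : V → V → Prop) (m : ℕ) (c : ℕ → V) : Prop :=
  3 ≤ m ∧ (∀ i, A (c i) (c (i+1))) ∧ (∀ i, c (i+m) = c i) ∧ (∀ i j, i < j → j < i+m → c i ≠ c j)

def HasCyc {V : Type*} (A : V → V → Prop) (m : ℕ) : Prop := ∃ c, IsCyc A m c

theorem HasCyc.mono {V : Type*} {A B : V → V → Prop} {m : ℕ} (h : HasCyc A m)
    (hAB : ∀ x y, A x y → B x y) : HasCyc B m := by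
  obtain ⟨c, h3, h1, h2, h4⟩ := h
  exact ⟨c, h3, fun i => hAB _ _ (h1 i), h2, h4⟩

theorem HasCyc.map {V W : Type*} {A : V → V → Prop} {B : W → W → Prop} {m : ℕ} (h : HasCyc A m)
    (f : V → W) (hf : Function.Injective f)
    (hAB : ∀ x y, A x y → B (f x) (f y)) : HasCyc B m := by
  obtain ⟨c, h3, h1, h2, h4⟩ := h
  exact ⟨fun i => f (c i), h3, fun i => hAB _ _ (h1 i), fun i => by simp [h2 i],
    fun i j hij hj he => h4 i j hij hj (hf he)⟩

theorem mkCyc {V : Type*} {A : V → V → Prop} {m : ℕ} (hm : 3 ≤ m) (q : ℕ → V)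
    (inj : ∀ i j, i < j → j < m → q i ≠ q j)
    (adj : ∀ i, i + 1 < m → A (q i) (q (i+1)))
    (cl : A (q (m-1)) (q 0)) : HasCyc A m := by
  refine ⟨fun i => q (i % m), hm, ?_, ?_, ?_⟩
  · intro i
    have hr : i % m < m := Nat.mod_lt _ (by omega)
    by_cases h : i % m + 1 < m
    · have : (i+1) % m = i % m + 1 := by
        rw [Nat.add_mod, Nat.mod_eq_of_lt (show 1 < m by omega), Nat.mod_eq_of_lt h]
      simp only [this]
      exact adj _ h
    · have h1 : i % m = m - 1 := by omega
      have : (i+1) % m = 0 := by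
        rw [Nat.add_mod, Nat.mod_eq_of_lt (show 1 < m by omega), h1,
          Nat.sub_add_cancel (by omega), Nat.mod_self]
      simp only [this, h1]
      exact cl
  · intro i; simp
  · intro i j hij hj
    have hne : i % m ≠ j % m := by
      intro he
      have : (j - i) % m = 0 := Nat.sub_mod_eq_zero_of_mod_eq he.symm
      have h2 : (j - i) % m = j - i := Nat.mod_eq_of_lt (by omega)
      omega
    have hi : i % m < m := Nat.mod_lt _ (by omega)
    have hj' : j % m < m := Nat.mod_lt _ (by omega)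
    rcases lt_or_gt_of_ne hne with h | h
    · exact inj _ _ h hj'
    · exact (inj _ _ h hi).symm

/-- Shifting a cycle. -/
theorem IsCyc.shift {V : Type*} {A : V → V → Prop} {m : ℕ} {c : ℕ → V} (h : IsCyc A m c) (k : ℕ) :
    IsCyc A m (fun i => c (k + i)) := by
  obtain ⟨h3, h1, h2, h4⟩ := h
  refine ⟨h3, fun i => h1 (k+i), fun i => ?_, fun i j hij hj => h4 _ _ (by omega) (by omega)⟩
  have := h2 (k+i)
  simpa [add_assoc] using this

/-- Two strands: positions `0..N-1`, positions at distance two adjacent, first two and last two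
adjacent. -/
theorem strand {V : Type*} {B : V → V → Prop} (hs : ∀ x y, B x y → B y x) {N : ℕ} (hN : 3 ≤ N)
    (x : ℕ → V) (inj : ∀ i j, i < j → j < N → x i ≠ x j)
    (h2 : ∀ i, i + 2 < N → B (x i) (x (i+2)))
    (h0 : B (x 0) (x 1)) (hl : B (x (N-2)) (x (N-1))) : HasCyc B N := by
  have inj' : ∀ i j, i < N → j < N → i ≠ j → x i ≠ x j := by
    intro i j hi hj hij
    rcases lt_or_gt_of_ne hij with h | h
    · exact inj _ _ h hj
    · exact (inj _ _ h hi).symm
  refine mkCyc hN (fun i => x (if 2 * i < N then 2 * i else 2 * (N - i) - 1)) ?_ ?_ ?_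
  · intro i j hij hj
    apply inj'
    · split_ifs <;> omega
    · split_ifs <;> omega
    · split_ifs <;> omega
  · intro i hi
    by_cases ha : 2 * (i+1) < N
    · rw [if_pos (show 2 * i < N by omega), if_pos ha]
      have := h2 (2*i) (by omega)
      rwa [show 2 * (i+1) = 2*i+2 by ring]
    · rw [if_neg ha]
      by_cases hb : 2 * i < N
      · rw [if_pos hb]
        by_cases hc : N = 2 * i + 1
        · have e1 : 2 * i = N - 1 := by omega
          have e2 : 2 * (N - (i+1)) - 1 = N - 2 := by omega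
          rw [e1, e2]; exact hs _ _ hl
        · have e1 : 2 * i = N - 2 := by omega
          have e2 : 2 * (N - (i+1)) - 1 = N - 1 := by omega
          rw [e1, e2]; exact hl
      · rw [if_neg hb]
        have e1 : 2 * (N - i) - 1 = (2 * (N - (i+1)) - 1) + 2 := by omega
        rw [e1]
        exact hs _ _ (h2 _ (by omega))
  · have e1 : ¬ (2 * (N-1) < N) := by omega
    rw [if_neg e1, if_pos (by omega)]
    have e2 : 2 * (N - (N-1)) - 1 = 1 := by omega
    rw [e2]
    exact hs _ _ h0

end R72.Cyc
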