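import Pool.Agent.R72.Cyc.Basic

open Finset
open scoped Classical

namespace R72.Cyc

variable {V : Type*} [Fintype V]

/-- degree -/
noncomputable def dg (H : SimpleGraph V) (v : V) : ℕ := (univ.filter (fun w => H.Adj v w)).card

/-- no cycle of length at least `ℓ` -/
def NoLong {V : Type*} (H : SimpleGraph V) (ℓ : ℕ) : Prop := ∀ m, ℓ ≤ m → ¬ HasCyc H.Adj m

theorem path_deg (H : SimpleGraph V) (p : ℕ → V) (L : ℕ) (hL : 3 ≤ L)
    (inj : ∀ i j, i < j → j < L → p i ≠ p j)
    (adj : ∀ i, i + 1 < L → H.Adj (p i) (p (i+1)))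
    (hno : NoLong H L) : dg H (p 0) + dg H (p (L-1)) + 1 ≤ Fintype.card V := by
  set u := p 0 with hu
  set v := p (L-1) with hv
  have inj' : ∀ i j, i < L → j < L → p i = p j → i = j := by
    intro i j hi hj he
    by_contra hne
    rcases lt_or_gt_of_ne hne with h | h
    · exact inj _ _ h hj he
    · exact inj _ _ h hi he.symm
  let φ : V → V := fun w => if h : ∃ i, i + 1 < L ∧ p i = w then p (h.choose + 1) else w
  have φon : ∀ i, i + 1 < L → φ (p i) = p (i+1) := by
    intro i hi
    have hex : ∃ j, j + 1 < L ∧ p j = p i := ⟨i, hi, rfl⟩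
    have h1 : φ (p i) = p (hex.choose + 1) := dif_pos hex
    have h2 := hex.choose_spec
    have h3 : hex.choose = i := inj' _ _ (by omega) (by omega) h2.2
    rw [h1, h3]
  have φoff : ∀ w, (¬ ∃ i, i + 1 < L ∧ p i = w) → φ w = w := fun w hw => dif_neg hw
  have hvv : ¬ H.Adj v v := H.loopless.irrefl v
  -- crossing
  have cross : ∀ i, i + 1 < L → H.Adj v (p i) → ¬ H.Adj u (p (i+1)) := by
    intro i hi h1 h2
    refine hno L le_rfl (mkCyc hL (fun j => p (if j ≤ i then j else L + i - j)) ?_ ?_ ?_)
    · intro a b hab hb he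
      have := inj' _ _ (by split_ifs <;> omega) (by split_ifs <;> omega) he
      split_ifs at this <;> omega
    · intro j hj
      by_cases h3 : j + 1 ≤ i
      · simp only [if_pos h3, if_pos (show j ≤ i by omega)]
        exact adj j (by omega)
      · by_cases h4 : j ≤ i
        · have h5 : j = i := by omega
          subst h5
          simp only [if_pos h4, if_neg h3]
          have : L + j - (j+1) = L - 1 := by omega
          rw [this]; exact h1.symm
        · simp only [if_neg h4, if_neg h3]
          have e1 : L + i - j = (L + i - (j+1)) + 1 := by omega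
          rw [e1]
          exact (adj _ (by omega)).symm
    · have h3 : ¬ (L - 1 ≤ i) := by omega
      simp only [if_neg h3, if_pos (Nat.zero_le i)]
      have : L + i - (L - 1) = i + 1 := by omega
      rw [this]; exact h2.symm
  have offc : ∀ w, (¬ ∃ i, i + 1 < L ∧ p i = w) → H.Adj v w → ¬ H.Adj u w := by
    intro w hw h1 h2
    have hwp : ∀ i, i < L → p i ≠ w := by
      intro i hi he
      by_cases h : i + 1 < L
      · exact hw ⟨i, h, he⟩
      · have : i = L - 1 := by omega
        subst this
        exact hvv (by rw [← he] at h1; exact h1)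
    refine hno (L+1) (by omega) (mkCyc (by omega) (fun j => if j < L then p j else w) ?_ ?_ ?_)
    · intro a b hab hb he
      rw [if_pos (by omega)] at he
      split_ifs at he with h3
      · exact inj _ _ hab h3 he
      · exact hwp _ (by omega) he
    · intro j hj
      simp only [if_pos (show j < L by omega)]
      by_cases h3 : j + 1 < L
      · simp only [if_pos h3]; exact adj j h3
      · simp only [if_neg h3]
        have : j = L - 1 := by omega
        rw [this]; exact h1
    · simp only [show ¬ (L + 1 - 1 < L) by omega, if_neg, not_false_eq_true, if_pos (show 0 < L by omega)]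
      exact h2.symm
  set Nu := univ.filter (fun w => H.Adj u w) with hNu
  set Nv := univ.filter (fun w => H.Adj v w) with hNv
  have himg : (Nv.image φ).card = Nv.card := by
    apply card_image_of_injOn
    intro w1 h1 w2 h2 he
    have h1' : H.Adj v w1 := by simpa [hNv] using h1
    have h2' : H.Adj v w2 := by simpa [hNv] using h2
    by_cases c1 : ∃ i, i + 1 < L ∧ p i = w1
    · obtain ⟨i, hi, rfl⟩ := c1
      by_cases c2 : ∃ i, i + 1 < L ∧ p i = w2
      · obtain ⟨j, hj, rfl⟩ := c2
        rw [φon i hi, φon j hj] at he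
        have := inj' _ _ hi hj he
        have : i = j := by omega
        rw [this]
      · exfalso
        rw [φon i hi, φoff _ c2] at he
        by_cases h3 : i + 1 + 1 < L
        · exact c2 ⟨i+1, h3, he⟩
        · have : i + 1 = L - 1 := by omega
          rw [this] at he
          exact hvv (by rw [← he] at h2'; exact h2')
    · by_cases c2 : ∃ i, i + 1 < L ∧ p i = w2
      · exfalso
        obtain ⟨j, hj, rfl⟩ := c2
        rw [φon j hj, φoff _ c1] at he
        by_cases h3 : j + 1 + 1 < L
        · exact c1 ⟨j+1, h3, he.symm⟩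
        · have : j + 1 = L - 1 := by omega
          rw [this] at he
          exact hvv (by rw [he] at h1'; exact h1')
      · rwa [φoff _ c1, φoff _ c2] at he
  have hdisj : Disjoint (Nv.image φ) Nu := by
    rw [Finset.disjoint_left]
    intro w hw hwu
    rw [mem_image] at hw
    obtain ⟨x, hx, rfl⟩ := hw
    have hx' : H.Adj v x := by simpa [hNv] using hx
    have hu' : H.Adj u (φ x) := by simpa [hNu] using hwu
    by_cases c1 : ∃ i, i + 1 < L ∧ p i = x
    · obtain ⟨i, hi, rfl⟩ := c1
      rw [φon i hi] at hu'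
      exact cross i hi hx' hu'
    · rw [φoff _ c1] at hu'
      exact offc x c1 hx' hu'
  have hsub : Nv.image φ ∪ Nu ⊆ univ.erase u := by
    intro w hw
    rw [mem_union] at hw
    rw [mem_erase]
    refine ⟨?_, mem_univ _⟩
    rcases hw with hw | hw
    · rw [mem_image] at hw
      obtain ⟨x, hx, rfl⟩ := hw
      by_cases c1 : ∃ i, i + 1 < L ∧ p i = x
      · obtain ⟨i, hi, rfl⟩ := c1
        rw [φon i hi]
        intro he
        have := inj' _ _ hi (by omega) he
        omega
      · rw [φoff _ c1]
        intro he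
        exact c1 ⟨0, by omega, he.symm⟩
    · intro he
      have h3 := (mem_filter.1 hw).2
      rw [he] at h3
      exact H.loopless.irrefl u h3
  have h1 := card_le_card hsub
  rw [card_union_of_disjoint hdisj, himg, card_erase_of_mem (mem_univ _), card_univ] at h1
  have h2 : 0 < Fintype.card V := Fintype.card_pos_iff.2 ⟨u⟩
  show Nu.card + Nv.card + 1 ≤ _
  omega

theorem HasCyc.le_card {A : V → V → Prop} {m : ℕ} (h : HasCyc A m) : m ≤ Fintype.card V := by
  obtain ⟨c, h3, h1, h2, h4⟩ := h
  have : (range m).card ≤ (univ : Finset V).card := by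
    apply card_le_card_of_injOn c (fun _ _ => mem_coe.2 (mem_univ _))
    intro i hi j hj he
    simp only [coe_range, Set.mem_Iio] at hi hj
    by_contra hne
    rcases lt_or_gt_of_ne hne with h | h
    · exact h4 _ _ h (by omega) he
    · exact h4 _ _ h (by omega) he.symm
  simpa using this

theorem exists_max (H : SimpleGraph V) (ℓ : ℕ) (h : NoLong H ℓ) :
    ∃ H' : SimpleGraph V, H ≤ H' ∧ NoLong H' ℓ ∧ ∀ H'', H' ≤ H'' → NoLong H'' ℓ → H'' = H' := by
  obtain ⟨m, hm1, hm2⟩ := (Set.toFinite {G : SimpleGraph V | NoLong G ℓ}).exists_le_maximal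
    (a := H) h
  refine ⟨m, hm1, hm2.1, ?_⟩
  intro H'' h1 h2
  exact le_antisymm (hm2.2 h2 h1) h1

theorem max_deg (H : SimpleGraph V) (ℓ : ℕ) (h : NoLong H ℓ)
    (hmax : ∀ H'', H ≤ H'' → NoLong H'' ℓ → H'' = H) (u v : V) (huv : u ≠ v)
    (hn : ¬ H.Adj u v) : dg H u + dg H v + 1 ≤ Fintype.card V := by
  set H' := H ⊔ SimpleGraph.edge u v with hH'
  have hadj : ∀ x y, H'.Adj x y ↔ H.Adj x y ∨ ((x = u ∧ y = v) ∨ (x = v ∧ y = u)) := by
    intro x y
    rw [hH', SimpleGraph.sup_adj, SimpleGraph.edge_adj]
    constructor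
    · rintro (h | ⟨h, _⟩)
      · exact Or.inl h
      · exact Or.inr (by tauto)
    · rintro (h | h)
      · exact Or.inl h
      · refine Or.inr ⟨by tauto, ?_⟩
        rcases h with ⟨rfl, rfl⟩ | ⟨rfl, rfl⟩
        · exact huv
        · exact huv.symm
  have hnl : ¬ NoLong H' ℓ := by
    intro hh
    have := hmax H' le_sup_left hh
    apply hn
    rw [← this, hadj]
    exact Or.inr (Or.inl ⟨rfl, rfl⟩)
  unfold NoLong at hnl
  push Not at hnl
  obtain ⟨m, hm, c, h3, h1, h2, h4⟩ := hnl
  by_cases hall : ∀ i, H.Adj (c i) (c (i+1))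
  · exact absurd ⟨c, h3, hall, h2, h4⟩ (h m hm)
  · push Not at hall
    obtain ⟨i, hi⟩ := hall
    have hi' := (hadj _ _).1 (h1 i)
    have hi2 : (c i = u ∧ c (i+1) = v) ∨ (c i = v ∧ c (i+1) = u) := by tauto
    have hends : c (i+1+(m-1)) = c i := by
      rw [show i + 1 + (m-1) = i + m by omega]; exact h2 i
    have key := path_deg H (fun j => c (i+1+j)) m (by omega)
      (fun a b hab hb => h4 _ _ (by omega) (by omega))
      (by
        intro j hj
        have hj' := (hadj _ _).1 (h1 (i+1+j))
        rcases hj' with hj' | hj'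
        · exact hj'
        · exfalso
          have hs : (c (i+1+j) = c i ∧ c (i+1+j+1) = c (i+1)) ∨
              (c (i+1+j) = c (i+1) ∧ c (i+1+j+1) = c i) := by
            rcases hi2 with ⟨a1, a2⟩ | ⟨a1, a2⟩ <;> rcases hj' with ⟨b1, b2⟩ | ⟨b1, b2⟩ <;>
              simp_all
          rcases hs with ⟨a1, _⟩ | ⟨a1, a2⟩
          · exact h4 i (i+1+j) (by omega) (by omega) a1.symm
          · by_cases hj0 : j = 0
            · subst hj0
              exact h4 i (i+1+0+1) (by omega) (by omega) a2.symm
            · exact h4 (i+1) (i+1+j) (by omega) (by omega) a1.symm)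
      (fun m' hm' => h m' (by omega))
    simp only [hends, add_zero] at key
    rcases hi2 with ⟨a1, a2⟩ | ⟨a1, a2⟩
    · rw [a1, a2] at key; omega
    · rw [a1, a2] at key; omega

/-- complete graphs have Hamiltonian cycles -/
theorem complete_cyc (H : SimpleGraph V) (hV : 3 ≤ Fintype.card V) (h : ∀ x y, x ≠ y → H.Adj x y) :
    HasCyc H.Adj (Fintype.card V) := by
  let e := (Fintype.equivFin V).symm
  have hpos : 0 < Fintype.card V := by omega
  refine mkCyc hV (fun i => if hi : i < Fintype.card V then e ⟨i, hi⟩ else e ⟨0, hpos⟩) ?_ ?_ ?_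
  · intro i j hij hj he
    simp only [dif_pos hj, dif_pos (show i < Fintype.card V by omega)] at he
    have := e.injective he
    simp at this
    omega
  · intro i hi
    simp only [dif_pos hi, dif_pos (show i < Fintype.card V by omega)]
    apply h
    intro he
    have := e.injective he
    simp at this
  · simp only [dif_pos hpos, dif_pos (show Fintype.card V - 1 < Fintype.card V by omega)]
    apply h
    intro he
    have := e.injective he
    simp at this
    omega

/-- Pósa's theorem. -/
theorem posa (H : SimpleGraph V) (hV : 3 ≤ Fintype.card V) (hno : ¬ HasCyc H.Adj (Fintype.card V)) :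
    ∃ k, 1 ≤ k ∧ 2 * k < Fintype.card V ∧ k ≤ (univ.filter (fun v => dg H v ≤ k)).card := by
  have hnl : NoLong H (Fintype.card V) := by
    intro m hm hc
    have := hc.le_card
    have : m = Fintype.card V := le_antisymm this hm
    exact hno (this ▸ hc)
  obtain ⟨H', hle, hnl', hmax⟩ := exists_max H _ hnl
  have hdgle : ∀ v, dg H v ≤ dg H' v := by
    intro v
    apply card_le_card
    intro w hw
    simp only [mem_filter, mem_univ, true_and] at hw ⊢
    exact hle hw
  set P := (univ : Finset (V × V)).filter (fun p => p.1 ≠ p.2 ∧ ¬ H'.Adj p.1 p.2) with hP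
  have hPne : P.Nonempty := by
    by_contra hemp
    rw [not_nonempty_iff_eq_empty] at hemp
    refine hnl' _ le_rfl (complete_cyc H' hV ?_)
    intro x y hxy
    by_contra hh
    have : (x, y) ∈ P := by simp [hP, hxy, hh]
    rw [hemp] at this
    simp at this
  obtain ⟨⟨u, v⟩, hp, hpmax⟩ := exists_max_image P (fun p => dg H' p.1 + dg H' p.2) hPne
  -- symmetric wlog
  have main : ∀ u v : V, u ≠ v → ¬ H'.Adj u v → dg H' u ≤ dg H' v →
      (∀ x y, x ≠ y → ¬ H'.Adj x y → dg H' x + dg H' y ≤ dg H' u + dg H' v) →
      ∃ k, 1 ≤ k ∧ 2 * k < Fintype.card V ∧ k ≤ (univ.filter (fun v => dg H v ≤ k)).card := by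
    intro u v huv hn hle1 hm
    have hsum := max_deg H' _ hnl' hmax u v huv hn
    -- non-neighbours of v
    set NN := (univ.filter (fun w => ¬ H'.Adj v w)).erase v with hNN
    have hNNcard : NN.card + dg H' v + 1 = Fintype.card V := by
      have h1 : (univ.filter (fun w => ¬ H'.Adj v w)).card + dg H' v = Fintype.card V := by
        unfold dg
        rw [← card_univ, ← card_filter_add_card_filter_not (s := (univ : Finset V)) (p := fun w => H'.Adj v w)]
        omega
      have h2 : v ∈ univ.filter (fun w => ¬ H'.Adj v w) := by simp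
      have h3 := card_erase_add_one h2
      rw [← hNN] at h3
      omega
    have hlow : ∀ w ∈ NN, dg H' w ≤ dg H' u := by
      intro w hw
      rw [hNN, mem_erase] at hw
      have hw2 : ¬ H'.Adj v w := by simpa using hw.2
      have := hm w v hw.1 (fun hh => hw2 hh.symm)
      omega
    have hk0 : dg H' u ≤ NN.card := by omega
    have hsub : ∀ k, dg H' u ≤ k → NN ⊆ univ.filter (fun v => dg H v ≤ k) := by
      intro k hk w hw
      simp only [mem_filter, mem_univ, true_and]
      exact le_trans (hdgle w) (le_trans (hlow w hw) hk)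
    by_cases hz : dg H' u = 0
    · refine ⟨1, le_rfl, by omega, ?_⟩
      have : u ∈ univ.filter (fun v => dg H v ≤ 1) := by
        simp only [mem_filter, mem_univ, true_and]
        have := hdgle u
        omega
      exact card_pos.2 ⟨u, this⟩
    · refine ⟨dg H' u, by omega, by omega, ?_⟩
      exact le_trans hk0 (card_le_card (hsub _ le_rfl))
  have hp' : u ≠ v ∧ ¬ H'.Adj u v := by simpa [hP] using hp
  have hpm : ∀ x y, x ≠ y → ¬ H'.Adj x y → dg H' x + dg H' y ≤ dg H' u + dg H' v := by
    intro x y hxy hn
    have : (x, y) ∈ P := by simp [hP, hxy, hn]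
    exact hpmax _ this
  rcases le_total (dg H' u) (dg H' v) with h | h
  · exact main u v hp'.1 hp'.2 h hpm
  · refine main v u hp'.1.symm (fun hh => hp'.2 hh.symm) h ?_
    intro x y hxy hn
    have := hpm x y hxy hn
    omega

omit [Fintype V] in
/-- relative version of Pósa's theorem -/
theorem posa_rel (H : SimpleGraph V) (S : Finset V) (hS : 3 ≤ S.card)
    (hno : ¬ HasCyc H.Adj S.card) :
    ∃ k, 1 ≤ k ∧ 2 * k < S.card ∧
      k ≤ (S.filter (fun v => (S.filter (fun w => H.Adj v w)).card ≤ k)).card := by
  let HS : SimpleGraph S := H.comap (fun x : S => (x : V))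
  have hcard : Fintype.card S = S.card := Fintype.card_coe S
  have h1 : ¬ HasCyc HS.Adj (Fintype.card S) := by
    intro hc
    rw [hcard] at hc
    exact hno (hc.map (fun x : S => (x : V)) Subtype.val_injective (fun x y hxy => hxy))
  have hdeg : ∀ v : S, dg HS v = (S.filter (fun w => H.Adj v w)).card := by
    intro v
    unfold dg
    apply card_bij (fun (x : S) _ => (x : V))
    · intro a ha
      simp only [mem_filter, mem_univ, true_and] at ha ⊢
      exact ⟨a.2, ha⟩
    · intro a _ b _ hab
      exact Subtype.ext hab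
    · intro b hb
      simp only [mem_filter] at hb
      exact ⟨⟨b, hb.1⟩, by simpa [HS] using hb.2, rfl⟩
  obtain ⟨k, hk1, hk2, hk3⟩ := posa HS (by omega) h1
  refine ⟨k, hk1, by omega, le_trans hk3 (le_of_eq ?_)⟩
  apply card_bij (fun (x : S) _ => (x : V))
  · intro a ha
    simp only [mem_filter, mem_univ, true_and] at ha ⊢
    exact ⟨a.2, by rw [← hdeg a]; exact ha⟩
  · intro a _ b _ hab
    exact Subtype.ext hab
  · intro b hb
    simp only [mem_filter] at hb
    refine ⟨⟨b, hb.1⟩, ?_, rfl⟩
    simp only [mem_filter, mem_univ, true_and]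
    rw [hdeg]; exact hb.2

end R72.Cyc
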