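import Mathlib

open Finset

namespace R72.Cyc

/-- sums of initial segments -/
def PA (s : ℕ → ℤ) (j : ℕ) : ℤ := ∑ i ∈ range j, s i

/-- slack -/
def PQ (s : ℕ → ℤ) (d : ℤ) (j : ℕ) : ℤ := ∑ i ∈ range j, s i * (s i - d - PA s i)

theorem PA_succ (s : ℕ → ℤ) (j : ℕ) : PA s (j+1) = PA s j + s j := by
  simp [PA, sum_range_succ]

theorem PQ_succ (s : ℕ → ℤ) (d : ℤ) (j : ℕ) :
    PQ s d (j+1) = PQ s d j + s j * (s j - d - PA s j) := by
  simp [PQ, sum_range_succ]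

/-- The target sums. -/
def tgt (a0 d : ℤ) (r : ℕ) : ℤ := 2 ^ r * (a0 + d) - d

theorem tgt_succ (a0 d : ℤ) (r : ℕ) : tgt a0 d (r+1) = 2 * tgt a0 d r + d := by
  unfold tgt; rw [pow_succ]; ring

theorem tgt_ge (a0 d : ℤ) (ha : 0 ≤ a0) (hd : 0 ≤ d) (r : ℕ) : a0 ≤ tgt a0 d r := by
  induction r with
  | zero => simp [tgt]
  | succ r ih => rw [tgt_succ]; linarith

theorem chain (s : ℕ → ℤ) (d : ℤ) (t j0 : ℕ) (a0 q0 : ℤ) (hj0 : 1 ≤ j0)
    (hd : 0 ≤ d) (ha0 : 0 ≤ a0) (hq0 : 0 ≤ q0)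
    (mono : ∀ i, i + 1 < t → s i ≤ s (i+1))
    (hQ : ∀ j, j ≤ t → 0 ≤ PQ s d j)
    (hb1 : ∀ x, s (j0 - 1) ≤ x → PQ s d j0 - x * PA s j0 ≤ q0 - x * a0)
    (hb2 : a0 ≤ PA s j0) (hb3 : q0 < s (j0 - 1)) :
    ∀ r, j0 + r < t →
      (∀ x, s (j0 + r - 1) ≤ x → PQ s d (j0+r) - x * PA s (j0+r) ≤ q0 - x * tgt a0 d r) ∧
      tgt a0 d r ≤ PA s (j0+r) ∧ q0 < s (j0 + r - 1) ∧ tgt a0 d r + d ≤ s (j0+r) := by
  -- the last conjunct follows from the others
  have step : ∀ r, j0 + r < t →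
      (∀ x, s (j0 + r - 1) ≤ x → PQ s d (j0+r) - x * PA s (j0+r) ≤ q0 - x * tgt a0 d r) →
      q0 < s (j0 + r - 1) → tgt a0 d r + d ≤ s (j0+r) := by
    intro r hr h1 h3
    by_contra hlt
    push Not at hlt
    have hm : s (j0 + r - 1) ≤ s (j0 + r) := by
      have := mono (j0 + r - 1) (by omega)
      rwa [show j0 + r - 1 + 1 = j0 + r by omega] at this
    have h4 := h1 _ hm
    have h5 := hQ (j0 + r + 1) (by omega)
    rw [PQ_succ] at h5
    set x := s (j0 + r)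
    have h6 : 0 ≤ q0 + x * (x - d - tgt a0 d r) := by linarith
    have h7 : x ≤ x * (tgt a0 d r + d - x) := by
      have : 1 ≤ tgt a0 d r + d - x := by linarith [Int.add_one_le_iff.2 hlt]
      nlinarith
    nlinarith
  intro r
  induction r with
  | zero =>
    intro hr
    have h1 : ∀ x, s (j0 + 0 - 1) ≤ x → PQ s d (j0+0) - x * PA s (j0+0) ≤ q0 - x * tgt a0 d 0 := by
      simpa [tgt] using hb1
    have h3 : q0 < s (j0 + 0 - 1) := by simpa using hb3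
    exact ⟨h1, by simpa [tgt] using hb2, h3, step 0 hr h1 h3⟩
  | succ r ih =>
    intro hr
    obtain ⟨i1, i2, i3, i4⟩ := ih (by omega)
    have e1 : j0 + (r + 1) - 1 = j0 + r := by omega
    have e2 : j0 + (r + 1) = j0 + r + 1 := by omega
    have hm : s (j0 + r - 1) ≤ s (j0 + r) := by
      have := mono (j0 + r - 1) (by omega)
      rwa [show j0 + r - 1 + 1 = j0 + r by omega] at this
    have hx0 : 0 < s (j0 + r) := by linarith
    have h1 : ∀ x, s (j0 + (r+1) - 1) ≤ x →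
        PQ s d (j0+(r+1)) - x * PA s (j0+(r+1)) ≤ q0 - x * tgt a0 d (r+1) := by
      intro x hx
      rw [e1] at hx
      rw [e2, PQ_succ, PA_succ, tgt_succ]
      have h5 := i1 (x + s (j0 + r)) (by linarith)
      have h6 : 0 ≤ (s (j0+r) - (tgt a0 d r + d)) * (x - s (j0 + r)) :=
        mul_nonneg (by linarith) (by linarith)
      nlinarith
    have h3 : q0 < s (j0 + (r+1) - 1) := by rw [e1]; linarith
    refine ⟨h1, ?_, h3, step (r+1) hr h1 h3⟩
    rw [e2, PA_succ, tgt_succ]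
    linarith

theorem final (s e : ℕ → ℤ) (d ℓ : ℤ) (t j0 r : ℕ) (a0 q0 : ℤ) (hj0 : 1 ≤ j0)
    (hd : 0 ≤ d) (ha0 : 0 < a0) (hq0 : q0 = 0 ∨ (q0 = d + 1 ∧ 3 ≤ a0))
    (htr : j0 + r + 1 = t)
    (mono : ∀ i, i + 1 < t → s i ≤ s (i+1))
    (he : ∀ i, i < t → e i ≤ s i * (s i - d))
    (hcount : ∀ j, j ≤ t → ∑ i ∈ range j, s i * PA s i ≤ ∑ i ∈ range j, e i)
    (hn : PA s t ≤ ℓ + d)
    (hlast : 2 * s (t-1) = ℓ + 2 * d → ∃ k : ℤ, 1 ≤ k ∧ k + s (t-1) < ℓ + d ∧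
      e (t-1) ≤ (k + d) * k + (s (t-1) - (k + d)) * (ℓ + d - s (t-1)))
    (hb1 : ∀ x, s (j0 - 1) ≤ x → PQ s d j0 - x * PA s j0 ≤ q0 - x * a0)
    (hb2 : a0 ≤ PA s j0) (hb3 : q0 < s (j0 - 1)) :
    2 * tgt a0 d r + 1 ≤ ℓ := by
  have hQe : ∀ j, j ≤ t → ∑ i ∈ range j, e i ≤ ∑ i ∈ range j, s i * (s i - d) := by
    intro j hj
    apply sum_le_sum
    intro i hi
    exact he i (by rw [mem_range] at hi; omega)
  have hQid : ∀ j, PQ s d j = ∑ i ∈ range j, s i * (s i - d) - ∑ i ∈ range j, s i * PA s i := by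
    intro j
    rw [← sum_sub_distrib]
    apply sum_congr rfl
    intro i _
    ring
  have hQ : ∀ j, j ≤ t → 0 ≤ PQ s d j := by
    intro j hj
    rw [hQid]
    have := hQe j hj
    have := hcount j hj
    linarith
  have hq0' : 0 ≤ q0 := by rcases hq0 with h | h <;> linarith [h]
  obtain ⟨c1, c2, c3, c4⟩ := chain s d t j0 a0 q0 hj0 hd ha0.le hq0' mono hQ hb1 hb2 hb3 r (by omega)
  set a := tgt a0 d r with ha
  have haa : a0 ≤ a := tgt_ge a0 d ha0.le hd r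
  have hT : t - 1 = j0 + r := by omega
  rw [hT] at hlast
  have hAt : PA s t = PA s (j0+r) + s (j0+r) := by
    rw [← htr, PA_succ]
  rw [hAt] at hn
  by_contra hlt
  push Not at hlt
  have hlt' : ℓ ≤ 2 * a := by linarith [Int.lt_add_one_iff.1 (by linarith : ℓ < 2 * a + 1)]
  have eA : PA s (j0+r) = a := by linarith
  have es : s (j0+r) = a + d := by linarith
  have eℓ : ℓ = 2 * a := by linarith
  obtain ⟨k, hk1, hk2, hk3⟩ := hlast (by linarith)
  have hm : s (j0 + r - 1) ≤ s (j0 + r) := by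
    have := mono (j0 + r - 1) (by omega)
    rwa [show j0 + r - 1 + 1 = j0 + r by omega] at this
  have hQT := c1 _ hm
  have hct := hcount t le_rfl
  rw [← htr, sum_range_succ, sum_range_succ] at hct
  have hee := hQe (j0 + r) (by omega)
  have hid := hQid (j0 + r)
  rw [eA, es] at hct hQT
  rw [es, eℓ] at hk2 hk3
  have hQT' : PQ s d (j0+r) ≤ q0 := by linarith
  have key : (a - k) * (d + k) ≤ q0 := by nlinarith
  have hak : 1 ≤ a - k := by linarith [Int.add_one_le_iff.2 (by linarith : k < a)]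
  rcases hq0 with h | ⟨h, h3⟩
  · rw [h] at key
    have : 0 < (a - k) * (d + k) := mul_pos (by linarith) (by linarith)
    linarith
  · rw [h] at key
    by_cases hk : 2 ≤ k
    · have : d + k ≤ (a - k) * (d + k) := by nlinarith
      linarith
    · have hk' : k = 1 := by linarith [Int.lt_add_one_iff.1 (by linarith : k < 1 + 1)]
      rw [hk'] at key
      have : 2 * (d + 1) ≤ (a - 1) * (d + 1) := by nlinarith
      linarith

theorem base0 (s : ℕ → ℤ) (h0 : 1 ≤ s 0) (h01 : s 0 ≤ s 1) (h12 : s 1 ≤ s 2) :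
    (∀ x, s (3 - 1) ≤ x → PQ s 0 3 - x * PA s 3 ≤ 0 - x * 3) ∧ 3 ≤ PA s 3 ∧ 0 < s (3 - 1) := by
  have e1 : PA s 3 = s 0 + s 1 + s 2 := by simp [PA, sum_range_succ]
  have e2 : PQ s 0 3 = s 0 * s 0 + s 1 * (s 1 - s 0) + s 2 * (s 2 - (s 0 + s 1)) := by
    simp [PQ, PA, sum_range_succ]
  refine ⟨?_, by rw [e1]; linarith, by norm_num; linarith⟩
  intro x hx
  norm_num at hx
  rw [e1, e2]
  set a := s 0
  set b := s 1
  set c := s 2
  have h1 : 0 ≤ (x - c) * (a + b + c - 3) := mul_nonneg (by linarith) (by linarith)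
  have h2 : a * (a - b) ≤ 0 := mul_nonpos_of_nonneg_of_nonpos (by linarith) (by linarith)
  have h3 : 0 ≤ c * (a - 1) := mul_nonneg (by linarith) (by linarith)
  have h4 : 0 ≤ (c - b) * b := mul_nonneg (by linarith) (by linarith)
  have h5 : 0 ≤ c * (b - 1) := mul_nonneg (by linarith) (by linarith)
  nlinarith

theorem base1 (s : ℕ → ℤ) (h0 : 2 ≤ s 0) (h01 : s 0 ≤ s 1) :
    (∀ x, s (2 - 1) ≤ x → PQ s 1 2 - x * PA s 2 ≤ 0 - x * 4) ∧ 4 ≤ PA s 2 ∧ 0 < s (2 - 1) := by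
  have e1 : PA s 2 = s 0 + s 1 := by simp [PA, sum_range_succ]
  have e2 : PQ s 1 2 = s 0 * (s 0 - 1) + s 1 * (s 1 - 1 - s 0) := by
    simp [PQ, PA, sum_range_succ]
  refine ⟨?_, by rw [e1]; linarith, by norm_num; linarith⟩
  intro x hx
  norm_num at hx
  rw [e1, e2]
  set a := s 0
  set b := s 1
  have h1 : 0 ≤ (x - b) * (a + b - 4) := mul_nonneg (by linarith) (by linarith)
  have h2 : 0 ≤ (b - a) * (2 * a - 3) := mul_nonneg (by linarith) (by linarith)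
  have h3 : 0 ≤ a * (a - 2) := mul_nonneg (by linarith) (by linarith)
  nlinarith

theorem base2 (s : ℕ → ℤ) (d : ℤ) (hd : 2 ≤ d) (h0 : d + 1 ≤ s 0) (h01 : s 0 ≤ s 1)
    (hQ : 0 ≤ PQ s d 2) :
    (∀ x, s (2 - 1) ≤ x → PQ s d 2 - x * PA s 2 ≤ (d + 1) - x * (3 * d + 2)) ∧
      3 * d + 2 ≤ PA s 2 ∧ d + 1 < s (2 - 1) := by
  have e1 : PA s 2 = s 0 + s 1 := by simp [PA, sum_range_succ]
  have e2 : PQ s d 2 = s 0 * (s 0 - d) + s 1 * (s 1 - d - s 0) := by
    simp [PQ, PA, sum_range_succ]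
  rw [e2] at hQ
  have hsum : 3 * d + 2 ≤ s 0 + s 1 := by
    by_contra hlt
    push Not at hlt
    set a := s 0
    set b := s 1
    have h1 : 0 ≤ (a - (d + 1)) * (b - (d + 1)) := mul_nonneg (by linarith) (by linarith)
    -- σ = a + b between 2d+2 and 3d+1
    have h2 : a + b ≤ 3 * d + 1 := by linarith [Int.lt_add_one_iff.1 (by linarith : a + b < 3 * d + 1 + 1)]
    have h3 : 2 * d + 2 ≤ a + b := by linarith
    have h4 : 0 ≤ (a + b - (2 * d + 2)) * (3 * d + 1 - (a + b)) :=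
      mul_nonneg (by linarith) (by linarith)
    have h5 : 0 ≤ (d - 2) * (3 * d + 1 - (a + b)) := mul_nonneg (by linarith) (by linarith)
    have h6 : 0 ≤ (d - 2) * (a + b - (2 * d + 2)) := mul_nonneg (by linarith) (by linarith)
    nlinarith
  have hb : d + 1 < s 1 := by linarith
  refine ⟨?_, by rw [e1]; linarith, by norm_num; linarith⟩
  intro x hx
  norm_num at hx
  rw [e1, e2]
  set a := s 0
  set b := s 1
  have h1 : 0 ≤ (x - b) * (a + b - (3 * d + 2)) := mul_nonneg (by linarith) (by linarith)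
  have h2 : 0 ≤ (a - d - 1) * (2 * b - (a - d - 1) - d - 2) :=
    mul_nonneg (by linarith) (by linarith)
  nlinarith

end R72.Cyc
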