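import Pool.Agent.R72.Cyc.Fam
import Pool.Agent.R72.Cyc.Numeric

open Finset
open scoped Classical

namespace R72.Cyc
namespace Fam

variable {V : Type*} [Fintype V] {t ℓ d : ℕ} (F : Fam V t ℓ d)

/-- number of `i`-available pairs from `W i` to `W k` -/
noncomputable def E (i k : Fin t) : ℕ :=
  ∑ w ∈ F.W i, ((F.W k).filter (fun x => (F.H i).Adj w x)).card

theorem E_add (i k : Fin t) (hik : i ≠ k) (hdis : Disjoint (F.W i) (F.W k)) :
    (F.W i).card * (F.W k).card ≤ F.E i k + F.E k i := by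
  have h1 : F.E i k = (((F.W i) ×ˢ (F.W k)).filter (fun p => (F.H i).Adj p.1 p.2)).card := by
    rw [card_filter, sum_product]
    unfold E
    apply sum_congr rfl
    intro w _
    rw [card_filter]
  have h2 : F.E k i = (((F.W i) ×ˢ (F.W k)).filter (fun p => (F.H k).Adj p.2 p.1)).card := by
    rw [card_filter, sum_product_right]
    unfold E
    apply sum_congr rfl
    intro w _
    rw [card_filter]
  rw [h1, h2, ← card_product]
  refine le_trans (card_le_card ?_) (card_union_le _ _)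
  intro p hp
  rw [mem_union, mem_filter, mem_filter]
  have hp' := mem_product.1 hp
  have hne : p.1 ≠ p.2 := fun h => (Finset.disjoint_left.1 hdis) hp'.1 (h ▸ hp'.2)
  rcases F.cover i k hik p.1 p.2 hne with h | h
  · exact Or.inl ⟨hp, h⟩
  · exact Or.inr ⟨hp, h.symm⟩

theorem E_sum (hdis : ∀ i j, i ≠ j → Disjoint (F.W i) (F.W j)) (i : Fin t) (J : Finset (Fin t))
    (hi : i ∉ J) : ∑ k ∈ J, F.E i k ≤ F.e i := by
  unfold E e
  rw [sum_comm]
  apply sum_le_sum
  intro w _
  rw [← card_biUnion]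
  · apply card_le_card
    intro x hx
    rw [mem_biUnion] at hx
    obtain ⟨k, hk, hx⟩ := hx
    rw [mem_filter] at hx
    simp only [mem_filter, mem_univ, true_and]
    refine ⟨?_, hx.2⟩
    have hne : k ≠ i := fun h => hi (h ▸ hk)
    exact fun h => (Finset.disjoint_left.1 (hdis k i hne)) hx.1 h
  · intro a _ b _ hab
    exact Finset.disjoint_of_subset_left (filter_subset _ _)
      (Finset.disjoint_of_subset_right (filter_subset _ _) (hdis a b hab))

theorem counting (hdis : ∀ i j, i ≠ j → Disjoint (F.W i) (F.W j)) (τ : ℕ → Fin t)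
    (hτ : ∀ i j, i < t → j < t → τ i = τ j → i = j) (j : ℕ) (hj : j ≤ t) :
    ∑ i ∈ range j, ((F.W (τ i)).card : ℤ) * PA (fun i => ((F.W (τ i)).card : ℤ)) i ≤
      ∑ i ∈ range j, (F.e (τ i) : ℤ) := by
  -- matrix version
  have h1 : ∀ j, j ≤ t → ∑ i ∈ range j, ((F.W (τ i)).card : ℤ) *
      PA (fun i => ((F.W (τ i)).card : ℤ)) i ≤
      ∑ i ∈ range j, ∑ k ∈ range j, (if i = k then (0:ℤ) else (F.E (τ i) (τ k) : ℤ)) := by
    intro j
    induction j with
    | zero => intro _; simp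
    | succ j ih =>
      intro hj
      have ih' := ih (by omega)
      rw [sum_range_succ, sum_range_succ]
      have e1 : ∀ i, ∑ k ∈ range (j+1), (if i = k then (0:ℤ) else (F.E (τ i) (τ k) : ℤ)) =
          ∑ k ∈ range j, (if i = k then (0:ℤ) else (F.E (τ i) (τ k) : ℤ)) +
          (if i = j then (0:ℤ) else (F.E (τ i) (τ j) : ℤ)) := fun i => sum_range_succ _ _
      simp only [e1, sum_add_distrib, if_true, add_zero]
      have e2 : ((F.W (τ j)).card : ℤ) * PA (fun i => ((F.W (τ i)).card : ℤ)) j ≤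
          ∑ i ∈ range j, (if i = j then (0:ℤ) else (F.E (τ i) (τ j) : ℤ)) +
          ∑ k ∈ range j, (if j = k then (0:ℤ) else (F.E (τ j) (τ k) : ℤ)) := by
        unfold PA
        rw [mul_sum, ← sum_add_distrib]
        apply sum_le_sum
        intro k hk
        rw [mem_range] at hk
        rw [if_neg (by omega), if_neg (by omega)]
        have hne : τ k ≠ τ j := fun h => by have := hτ _ _ (by omega) (by omega) h; omega
        have := F.E_add (τ k) (τ j) hne (hdis _ _ hne)
        have h3 : (((F.W (τ k)).card * (F.W (τ j)).card : ℕ) : ℤ) ≤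
            ((F.E (τ k) (τ j) + F.E (τ j) (τ k) : ℕ) : ℤ) := by exact_mod_cast this
        push_cast at h3
        linarith
      linarith
  refine le_trans (h1 j hj) (sum_le_sum ?_)
  intro i hi
  rw [mem_range] at hi
  have h2 : ∑ k ∈ range j, (if i = k then (0:ℤ) else (F.E (τ i) (τ k) : ℤ)) =
      ((∑ k ∈ ((range j).erase i).image τ, F.E (τ i) k : ℕ) : ℤ) := by
    rw [sum_image]
    · rw [← sum_erase_add (range j) _ (mem_range.2 hi), if_pos rfl, add_zero]
      push_cast
      apply sum_congr rfl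
      intro k hk
      rw [mem_erase] at hk
      rw [if_neg (Ne.symm hk.1)]
    · intro a ha b hb hab
      simp only [coe_erase, coe_range, Set.mem_sdiff, Set.mem_Iio] at ha hb
      exact hτ _ _ (by omega) (by omega) hab
  rw [h2]
  have h3 := F.E_sum hdis (τ i) (((range j).erase i).image τ) (by
    intro hmem
    rw [mem_image] at hmem
    obtain ⟨k, hk, hk2⟩ := hmem
    rw [mem_erase, mem_range] at hk
    exact hk.1 (hτ _ _ (by omega) (by omega) hk2))
  exact_mod_cast h3

theorem upper (F : Fam V t ℓ d) (ht : 3 ≤ t) (htd : d = 0 → 4 ≤ t) :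
    (d = 0 → 3 * 2 ^ (t-3) + 1 ≤ ℓ) ∧ (d = 1 → 5 * 2 ^ (t-2) ≤ ℓ + 1) ∧
    (2 ≤ d → 2 ^ (t-1) * (2 * d + 1) + 1 ≤ ℓ + 2 * d) := by
  have hdis := F.disj ht (by rcases Nat.eq_zero_or_pos d with h | h; exacts [Or.inl (htd h), Or.inr h])
  let f : Fin t → ℕ := fun i => (F.W i).card
  let σ := Tuple.sort f
  have hσ : Monotone (f ∘ σ) := Tuple.monotone_sort f
  have ht0 : 0 < t := by omega
  let τ : ℕ → Fin t := fun i => if h : i < t then σ ⟨i, h⟩ else σ ⟨0, ht0⟩
  have hτ : ∀ i j, i < t → j < t → τ i = τ j → i = j := by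
    intro i j hi hj h
    simp only [τ, dif_pos hi, dif_pos hj] at h
    have := σ.injective h
    simpa using this
  let s : ℕ → ℤ := fun i => ((F.W (τ i)).card : ℤ)
  let e : ℕ → ℤ := fun i => (F.e (τ i) : ℤ)
  have mono : ∀ i j, i ≤ j → j < t → s i ≤ s j := by
    intro i j hij hj
    have h1 : f (σ ⟨i, by omega⟩) ≤ f (σ ⟨j, hj⟩) := hσ (show (⟨i, by omega⟩ : Fin t) ≤ ⟨j, hj⟩ from hij)
    have h2 : τ i = σ ⟨i, by omega⟩ := dif_pos (by omega)
    have h3 : τ j = σ ⟨j, hj⟩ := dif_pos hj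
    show ((F.W (τ i)).card : ℤ) ≤ ((F.W (τ j)).card : ℤ)
    rw [h2, h3]
    exact_mod_cast h1
  have hs : ∀ i, (d : ℤ) + 1 ≤ s i := by
    intro i
    have := F.card_ge (τ i)
    show (d : ℤ) + 1 ≤ ((F.W (τ i)).card : ℤ)
    exact_mod_cast this
  have he : ∀ i, i < t → e i ≤ s i * (s i - d) := fun i _ => F.e_le (τ i)
  have hcount : ∀ j, j ≤ t → ∑ i ∈ range j, s i * PA s i ≤ ∑ i ∈ range j, e i :=
    fun j hj => F.counting hdis τ hτ j hj
  have hn : PA s t ≤ (ℓ : ℤ) + d := by
    have h1 : PA s t = ((∑ i ∈ range t, (F.W (τ i)).card : ℕ) : ℤ) := by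
      unfold PA; push_cast; rfl
    rw [h1]
    have h2 : ∑ i ∈ range t, (F.W (τ i)).card = ((range t).biUnion (fun i => F.W (τ i))).card := by
      rw [card_biUnion]
      intro a ha b hb hab
      rw [mem_coe, mem_range] at ha hb
      exact hdis _ _ (fun h => hab (hτ _ _ ha hb h))
    rw [h2]
    have h3 := card_le_univ ((range t).biUnion (fun i => F.W (τ i)))
    rw [F.hn] at h3
    exact_mod_cast h3
  have hlast : 2 * s (t-1) = (ℓ:ℤ) + 2 * d → ∃ k : ℤ, 1 ≤ k ∧ k + s (t-1) < (ℓ:ℤ) + d ∧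
      e (t-1) ≤ (k + d) * k + (s (t-1) - (k + d)) * ((ℓ:ℤ) + d - s (t-1)) := by
    intro h
    have h1 : 2 * (F.W (τ (t-1))).card = ℓ + 2 * d := by
      have : 2 * ((F.W (τ (t-1))).card : ℤ) = (ℓ:ℤ) + 2 * d := h
      exact_mod_cast this
    obtain ⟨k, h2, h3, h4⟩ := F.e_le' (τ (t-1)) h1
    refine ⟨k, by exact_mod_cast h2, ?_, h4⟩
    show (k:ℤ) + ((F.W (τ (t-1))).card : ℤ) < (ℓ:ℤ) + d
    exact_mod_cast h3
  have mono' : ∀ i, i + 1 < t → s i ≤ s (i+1) := fun i hi => mono i (i+1) (by omega) hi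
  refine ⟨?_, ?_, ?_⟩
  · intro hd
    subst hd
    have ht4 := htd rfl
    obtain ⟨b1, b2, b3⟩ := base0 s (by simpa using hs 0) (mono 0 1 (by omega) (by omega))
      (mono 1 2 (by omega) (by omega))
    have := final s e 0 ℓ t 3 (t - 4) 3 0 (by omega) le_rfl (by norm_num) (Or.inl rfl) (by omega)
      mono' (by simpa using he) hcount (by simpa using hn) (by simpa using hlast)
      (by simpa using b1) b2 b3
    unfold tgt at this
    have h2 : (2:ℤ) ^ (t-3) = 2 * 2 ^ (t-4) := by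
      rw [show t - 3 = (t-4) + 1 by omega, pow_succ]; ring
    have h3 : ((3 * 2 ^ (t-3) + 1 : ℕ) : ℤ) ≤ ℓ := by
      push_cast
      rw [h2]; linarith
    exact_mod_cast h3
  · intro hd
    subst hd
    obtain ⟨b1, b2, b3⟩ := base1 s (by have := hs 0; push_cast at this; linarith) (mono 0 1 (by omega) (by omega))
    have := final s e 1 ℓ t 2 (t - 3) 4 0 (by omega) (by norm_num) (by norm_num) (Or.inl rfl)
      (by omega) mono' (by simpa using he) hcount (by simpa using hn) (by simpa using hlast)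
      (by simpa using b1) b2 b3
    unfold tgt at this
    have h2 : (2:ℤ) ^ (t-2) = 2 * 2 ^ (t-3) := by
      rw [show t - 2 = (t-3) + 1 by omega, pow_succ]; ring
    have h3 : ((5 * 2 ^ (t-2) : ℕ) : ℤ) ≤ ((ℓ + 1 : ℕ) : ℤ) := by
      push_cast
      rw [h2]; linarith
    exact_mod_cast h3
  · intro hd
    have hd' : (2:ℤ) ≤ d := by exact_mod_cast hd
    have hQ : 0 ≤ PQ s d 2 := by
      have h1 : ∑ i ∈ range 2, e i ≤ ∑ i ∈ range 2, s i * (s i - d) := by
        apply sum_le_sum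
        intro i hi
        exact he i (by rw [mem_range] at hi; omega)
      have h2 := hcount 2 (by omega)
      have h3 : PQ s d 2 = ∑ i ∈ range 2, s i * (s i - d) - ∑ i ∈ range 2, s i * PA s i := by
        rw [← sum_sub_distrib]
        apply sum_congr rfl
        intro i _
        ring
      rw [h3]; linarith
    obtain ⟨b1, b2, b3⟩ := base2 s d hd' (hs 0) (mono 0 1 (by omega) (by omega)) hQ
    have := final s e d ℓ t 2 (t - 3) (3 * d + 2) (d + 1) (by omega) (by linarith) (by linarith)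
      (Or.inr ⟨rfl, by linarith⟩) (by omega) mono' he hcount hn hlast b1 b2 b3
    unfold tgt at this
    have h2 : (2:ℤ) ^ (t-1) = 4 * 2 ^ (t-3) := by
      rw [show t - 1 = (t-3) + 1 + 1 by omega, pow_succ, pow_succ]; ring
    have h3 : ((2 ^ (t-1) * (2 * d + 1) + 1 : ℕ) : ℤ) ≤ ((ℓ + 2 * d : ℕ) : ℤ) := by
      push_cast
      rw [h2]; nlinarith
    exact_mod_cast h3

end Fam
end R72.Cyc
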