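import Pool.Agent.R72.Cyc.Basic

open Finset

namespace R72.Cyc

/-- The edges not of colour `a`. -/
def Av {V : Type*} {t : ℕ} (χ : V → V → Fin t) (a : Fin t) (x y : V) : Prop := x ≠ y ∧ χ x y ≠ a

theorem Av.symm {V : Type*} {t : ℕ} {χ : V → V → Fin t} (hχ : ∀ x y, χ x y = χ y x) {a : Fin t}
    (x y : V) (h : Av χ a x y) : Av χ a y x := ⟨h.1.symm, by rw [hχ]; exact h.2⟩

theorem rung_prop (R : ℕ → Prop) (h : ∀ k, ¬ (R k ↔ R (k+3))) : ∃ k, (R k ↔ R (k+2)) := by
  by_contra hno
  have d : ∀ k, ¬ (R k ↔ R (k+2)) := fun k hk => hno ⟨k, hk⟩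
  have a0 := h 0
  have a3 := h 3
  have d0 := d 0
  have d2 := d 2
  have d4 := d 4
  simp only [Nat.zero_add] at a0 d0
  norm_num at a3 d2 d4
  by_cases h0 : R 0 <;> by_cases h2 : R 2 <;> by_cases h3 : R 3 <;> by_cases h4 : R 4 <;>
    by_cases h6 : R 6 <;> simp_all

/-- If no colour is avoided by a cycle of length `ℓ ≥ 4`, and there are at least three colours, then
no colour is avoided by a longer cycle. -/
theorem no_longer {V : Type*} {t : ℕ} (ht : 3 ≤ t) (χ : V → V → Fin t)
    (hχ : ∀ x y, χ x y = χ y x) (ℓ : ℕ) (hℓ : 4 ≤ ℓ) (h : ∀ a, ¬ HasCyc (Av χ a) ℓ) :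
    ∀ a m, ℓ ≤ m → ¬ HasCyc (Av χ a) m := by
  intro a
  by_contra hcon
  push Not at hcon
  classical
  -- minimal
  have hex : ∃ m, ℓ ≤ m ∧ HasCyc (Av χ a) m := by
    obtain ⟨m, h1, h2⟩ := hcon; exact ⟨m, h1, h2⟩
  obtain ⟨hm1, hm2⟩ := Nat.find_spec hex
  have hmin : ∀ m', ℓ ≤ m' → m' < Nat.find hex → ¬ HasCyc (Av χ a) m' := by
    intro m' h1 h2 h3
    exact Nat.find_min hex h2 ⟨h1, h3⟩
  set m := Nat.find hex with hmdef
  clear_value m
  have hmℓ : ℓ < m := by
    rcases Nat.lt_or_eq_of_le hm1 with h' | h'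
    · exact h'
    · exact absurd hm2 (h' ▸ h a)
  obtain ⟨c, hc⟩ := hm2
  obtain ⟨h3, hadj, hper, hinj⟩ := hc
  have hm5 : 5 ≤ m := by omega
  -- distinctness in windows
  have hne : ∀ i j, i < j → j < i + m → c i ≠ c j := hinj
  have sy := fun b => Av.symm hχ (a := b)
  -- chords at distance two have colour a
  have chord : ∀ r k, 2 ≤ r → r + ℓ ≤ m + 1 → χ (c k) (c (k+r)) = a := by
    intro r k hr hrl
    by_contra hcol
    refine hmin (m - r + 1) (by omega) (by omega) ?_
    refine mkCyc (by omega) (fun i => c (k + r + i)) ?_ ?_ ?_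
    · intro i j hij hj
      exact hne _ _ (by omega) (by omega)
    · intro i hi
      exact hadj (k+r+i)
    · have e1 : k + r + (m - r + 1 - 1) = k + m := by omega
      show Av χ a (c (k + r + (m - r + 1 - 1))) (c (k + r + 0))
      rw [e1, hper, add_zero]
      exact ⟨hne _ _ (by omega) (by omega), hcol⟩
  have c2 : ∀ k, χ (c k) (c (k+2)) = a := fun k => chord 2 k le_rfl (by omega)
  -- two further colours
  obtain ⟨b1, b2, hb1, hb2, hb12⟩ : ∃ b1 b2 : Fin t, b1 ≠ a ∧ b2 ≠ a ∧ b1 ≠ b2 := by
    have h1 : 1 < (Finset.univ.erase a).card := by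
      rw [Finset.card_erase_of_mem (Finset.mem_univ _), Finset.card_univ, Fintype.card_fin]
      omega
    obtain ⟨b1, hb1, b2, hb2, h12⟩ := Finset.one_lt_card.1 h1
    exact ⟨b1, b2, (Finset.mem_erase.1 hb1).1, (Finset.mem_erase.1 hb2).1, h12⟩
  -- an a-coloured pair is available for b1, b2
  have availa : ∀ b, b ≠ a → ∀ x y, x ≠ y → χ x y = a → Av χ b x y := by
    intro b hb x y hxy hc
    exact ⟨hxy, by rw [hc]; exact hb.symm⟩
  by_cases hcase : ℓ + 2 ≤ m
  · -- chords at distance 2, 3 all have colour a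
    have c3 : ∀ k, χ (c k) (c (k+3)) = a := fun k => chord 3 k (by omega) (by omega)
    refine h b1 ?_
    refine strand (sy b1) (by omega)
      (fun i => c (if i = 0 then 0 else if i = ℓ - 1 then ℓ + 1 else i + 1)) ?_ ?_ ?_ ?_
    · intro i j hij hj
      apply hne <;> split_ifs <;> first | omega | contradiction
    · intro i hi
      apply availa b1 hb1
      · try dsimp only
        apply hne <;> split_ifs <;> first | omega | contradiction
      · try dsimp only
        by_cases hi0 : i = 0
        · subst hi0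
          rw [if_pos rfl, if_neg (by omega), if_neg (by omega)]
          exact c3 0
        · rw [if_neg hi0, if_neg (by omega), if_neg (by omega)]
          by_cases hi1 : i + 2 = ℓ - 1
          · rw [if_pos hi1]
            have : ℓ + 1 = i + 1 + 3 := by omega
            rw [this]; exact c3 _
          · rw [if_neg hi1]
            exact c2 _
    · show Av χ b1 (c (if 0 = 0 then 0 else _)) (c (if 1 = 0 then 0 else if 1 = ℓ - 1 then ℓ + 1 else 1 + 1))
      rw [if_pos rfl, if_neg (by omega), if_neg (by omega)]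
      exact availa b1 hb1 _ _ (hne _ _ (by omega) (by omega)) (c2 0)
    · show Av χ b1 (c (if ℓ - 2 = 0 then 0 else if ℓ - 2 = ℓ - 1 then ℓ + 1 else ℓ - 2 + 1))
        (c (if ℓ - 1 = 0 then 0 else if ℓ - 1 = ℓ - 1 then ℓ + 1 else ℓ - 1 + 1))
      rw [if_neg (by omega), if_neg (by omega), if_neg (by omega), if_pos rfl]
      have : ℓ + 1 = ℓ - 2 + 1 + 2 := by omega
      rw [this]
      exact availa b1 hb1 _ _ (hne _ _ (by omega) (by omega)) (c2 _)
  · have hmeq : m = ℓ + 1 := by omega
    have hℓm : ℓ = m - 1 := by omega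
    -- classes of rungs
    have key : ∀ i j, ((χ (c i) (c (i+1)) = b1) ↔ (χ (c j) (c (j+1)) = b1)) →
        ∃ b, b ≠ a ∧ χ (c i) (c (i+1)) ≠ b ∧ χ (c j) (c (j+1)) ≠ b := by
      intro i j hij
      by_cases h1 : χ (c i) (c (i+1)) = b1
      · exact ⟨b2, hb2, by rw [h1]; exact hb12, by rw [hij.1 h1]; exact hb12⟩
      · exact ⟨b1, hb1, h1, fun h2 => h1 (hij.2 h2)⟩
    have key1 : ∀ i, ∃ b, b ≠ a ∧ χ (c i) (c (i+1)) ≠ b := by
      intro i
      obtain ⟨b, h1, h2, _⟩ := key i i Iff.rfl
      exact ⟨b, h1, h2⟩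
    -- (a)
    have ha : ∀ k, ¬ ((χ (c k) (c (k+1)) = b1) ↔ (χ (c (k+3)) (c (k+3+1)) = b1)) := by
      intro k hk
      obtain ⟨b, hb, e1, e2⟩ := key _ _ hk
      refine h b ?_
      rw [hℓm]
      refine strand (sy b) (by omega) (fun i => c (k+3+i)) ?_ ?_ ?_ ?_
      · intro i j hij hj
        apply hne <;> omega
      · intro i hi
        exact availa b hb _ _ (hne _ _ (by omega) (by omega)) (c2 (k+3+i))
      · exact ⟨hne _ _ (by omega) (by omega), e2⟩
      · have e3 : k + 3 + (m - 1 - 2) = k + m := by omega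
        have e4 : k + 3 + (m - 1 - 1) = k + 1 + m := by omega
        show Av χ b (c (k + 3 + (m - 1 - 2))) (c (k + 3 + (m - 1 - 1)))
        rw [e3, e4, hper, hper]
        exact ⟨hne _ _ (by omega) (by omega), e1⟩
    -- (b)
    have hb : ∀ k, χ (c k) (c (k+3)) ≠ a := by
      intro k hk
      obtain ⟨b, hb, e1⟩ := key1 (k + m - 2)
      refine h b ?_
      rw [hℓm]
      refine strand (sy b) (by omega) (fun i => c (if i = 0 then k else k+i+1)) ?_ ?_ ?_ ?_
      · intro i j hij hj
        apply hne <;> split_ifs <;> first | omega | contradiction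
      · intro i hi
        apply availa b hb
        · try dsimp only
          apply hne <;> split_ifs <;> first | omega | contradiction
        · try dsimp only
          by_cases hi0 : i = 0
          · subst hi0
            rw [if_pos rfl, if_neg (by omega)]
            exact hk
          · rw [if_neg hi0, if_neg (by omega)]
            have : k + (i+2) + 1 = k + i + 1 + 2 := by ring
            rw [this]; exact c2 _
      · show Av χ b (c (if 0 = 0 then k else _)) (c (if 1 = 0 then k else k + 1 + 1))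
        rw [if_pos rfl, if_neg (by omega)]
        exact availa b hb _ _ (hne _ _ (by omega) (by omega)) (c2 k)
      · show Av χ b (c (if m - 1 - 2 = 0 then k else k + (m - 1 - 2) + 1))
          (c (if m - 1 - 1 = 0 then k else k + (m - 1 - 1) + 1))
        rw [if_neg (by omega), if_neg (by omega)]
        have e3 : k + (m - 1 - 2) + 1 = k + m - 2 := by omega
        have e4 : k + (m - 1 - 1) + 1 = k + m - 2 + 1 := by omega
        rw [e3, e4]
        exact ⟨hne _ _ (by omega) (by omega), e1⟩
    -- (c)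
    have hc4 : ∀ k, χ (c k) (c (k+4)) = a := by
      intro k
      by_contra hk
      refine h a ?_
      rw [hℓm]
      refine mkCyc (by omega)
        (fun i => c (if i + 5 ≤ m then k + m - i else k + i + 6 - m)) ?_ ?_ ?_
      · intro i j hij hj
        have inj2 : ∀ p q, p ≠ q → k + 1 ≤ p → k + 1 ≤ q → p ≤ k + m → q ≤ k + m → c p ≠ c q := by
          intro p q hpq h1 h2 h3 h4
          rcases lt_or_gt_of_ne hpq with h5 | h5
          · exact hne _ _ h5 (by omega)
          · exact (hne _ _ h5 (by omega)).symm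
        apply inj2 <;> split_ifs <;> first | omega | contradiction
      · intro i hi
        show Av χ a (c (if i + 5 ≤ m then k + m - i else k + i + 6 - m))
          (c (if i + 1 + 5 ≤ m then k + m - (i+1) else k + (i+1) + 6 - m))
        by_cases h1 : i + 1 + 5 ≤ m
        · rw [if_pos (by omega), if_pos h1]
          have : k + m - i = k + m - (i+1) + 1 := by omega
          rw [this]
          exact sy a _ _ (hadj _)
        · by_cases h2 : i + 5 ≤ m
          · rw [if_pos h2, if_neg h1]
            have e1 : k + m - i = k + 2 + 3 := by omega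
            have e2 : k + (i+1) + 6 - m = k + 2 := by omega
            rw [e1, e2]
            exact sy a _ _ ⟨hne _ _ (by omega) (by omega), hb _⟩
          · rw [if_neg h2, if_neg h1]
            have e1 : k + (i+1) + 6 - m = k + i + 6 - m + 1 := by omega
            rw [e1]
            exact hadj _
      · show Av χ a (c (if m - 1 - 1 + 5 ≤ m then k + m - (m-1-1) else k + (m-1-1) + 6 - m))
          (c (if 0 + 5 ≤ m then k + m - 0 else k + 0 + 6 - m))
        rw [if_neg (by omega), if_pos (by omega)]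
        have e1 : k + (m-1-1) + 6 - m = k + 4 := by omega
        rw [e1, Nat.sub_zero, hper]
        exact sy a _ _ ⟨hne _ _ (by omega) (by omega), hk⟩
    -- (d)
    have hd : ∃ k, ((χ (c k) (c (k+1)) = b1) ↔ (χ (c (k+2)) (c (k+2+1)) = b1)) :=
      rung_prop (fun k => χ (c k) (c (k+1)) = b1) ha
    obtain ⟨k, hk⟩ := hd
    obtain ⟨b, hb', e1, e2⟩ := key _ _ hk
    refine h b ?_
    rw [hℓm]
    refine strand (sy b) (by omega)
      (fun i => c (if i = 0 then k+3 else if i = 1 then k+2 else k+3+i)) ?_ ?_ ?_ ?_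
    · intro i j hij hj
      have inj2 : ∀ p q, p ≠ q → k + 2 ≤ p → k + 2 ≤ q → p < k + 2 + m → q < k + 2 + m →
          c p ≠ c q := by
        intro p q hpq h1 h2 h3 h4
        rcases lt_or_gt_of_ne hpq with h5 | h5
        · exact hne _ _ h5 (by omega)
        · exact (hne _ _ h5 (by omega)).symm
      apply inj2 <;> split_ifs <;> first | omega | contradiction
    · intro i hi
      by_cases hi0 : i = 0
      · subst hi0
        show Av χ b (c (if 0 = 0 then k+3 else _)) (c (if 0 + 2 = 0 then k+3 else if 0 + 2 = 1 then k+2 else k+3+(0+2)))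
        rw [if_pos rfl, if_neg (by omega), if_neg (by omega)]
        exact availa b hb' _ _ (hne _ _ (by omega) (by omega)) (c2 (k+3))
      · by_cases hi1 : i = 1
        · subst hi1
          show Av χ b (c (if 1 = 0 then k+3 else if 1 = 1 then k + 2 else _)) (c (if 1 + 2 = 0 then k+3 else if 1 + 2 = 1 then k+2 else k+3+(1+2)))
          rw [if_neg (by omega), if_pos rfl, if_neg (by omega), if_neg (by omega)]
          exact availa b hb' _ _ (hne _ _ (by omega) (by omega)) (hc4 (k+2))
        · show Av χ b (c (if i = 0 then k+3 else if i = 1 then k + 2 else k + 3 + i)) (c (if i + 2 = 0 then k+3 else if i + 2 = 1 then k+2 else k+3+(i+2)))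
          rw [if_neg hi0, if_neg hi1, if_neg (by omega), if_neg (by omega)]
          exact availa b hb' _ _ (hne _ _ (by omega) (by omega)) (c2 (k+3+i))
    · show Av χ b (c (if 0 = 0 then k+3 else _)) (c (if 1 = 0 then k+3 else if 1 = 1 then k+2 else _))
      rw [if_pos rfl, if_neg (by omega), if_pos rfl]
      exact sy b _ _ ⟨hne _ _ (by omega) (by omega), e2⟩
    · show Av χ b (c (if m - 1 - 2 = 0 then k+3 else if m - 1 - 2 = 1 then k+2 else k+3+(m-1-2)))
        (c (if m - 1 - 1 = 0 then k+3 else if m - 1 - 1 = 1 then k+2 else k+3+(m-1-1)))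
      by_cases hm : m = 4
      · omega
      · have e3 : ¬ (m - 1 - 2 = 0) := by omega
        have e4 : ¬ (m - 1 - 2 = 1) := by omega
        rw [if_neg e3, if_neg e4, if_neg (by omega), if_neg (by omega)]
        have e5 : k + 3 + (m-1-2) = k + m := by omega
        have e6 : k + 3 + (m-1-1) = k + 1 + m := by omega
        rw [e5, e6, hper, hper]
        exact ⟨hne _ _ (by omega) (by omega), e1⟩

end R72.Cyc
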