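import Pool.Agent.R72.Cyc.Obst

open Finset
open scoped Classical

namespace R72.Cyc

structure Fam (V : Type*) [Fintype V] (t ℓ d : ℕ) where
  H : Fin t → SimpleGraph V
  cover : ∀ i j, i ≠ j → ∀ x y, x ≠ y → (H i).Adj x y ∨ (H j).Adj x y
  deg : ∀ i x y, x ≠ y → ¬ (H i).Adj x y → dg (H i) x + dg (H i) y + 1 ≤ Fintype.card V
  nolong : ∀ i, NoLong (H i) ℓ
  hn : Fintype.card V = ℓ + d
  hℓ : 3 ≤ ℓ

namespace Fam

variable {V : Type*} [Fintype V] {t ℓ d : ℕ} (F : Fam V t ℓ d)

noncomputable def W (i : Fin t) : Finset V :=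
  univ.filter (fun v => 2 * dg (F.H i) v + 1 ≤ Fintype.card V)

theorem mem_W {i : Fin t} {v : V} : v ∈ F.W i ↔ 2 * dg (F.H i) v + 1 ≤ Fintype.card V := by
  simp [W]

theorem clique (i : Fin t) (x y : V) (hx : x ∉ F.W i) (hy : y ∉ F.W i) (hxy : x ≠ y) :
    (F.H i).Adj x y := by
  by_contra hn
  have := F.deg i x y hxy hn
  rw [mem_W] at hx hy
  omega

theorem dg_lt (H : SimpleGraph V) (v : V) : dg H v + 1 ≤ Fintype.card V := by
  have h1 : univ.filter (fun w => H.Adj v w) ⊆ univ.erase v := by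
    intro w hw
    rw [mem_filter] at hw
    rw [mem_erase]
    exact ⟨hw.2.ne', mem_univ _⟩
  have := card_le_card h1
  rw [card_erase_of_mem (mem_univ _), card_univ] at this
  have h2 : 0 < Fintype.card V := Fintype.card_pos_iff.2 ⟨v⟩
  unfold dg
  omega

theorem lowdeg (i : Fin t) (w : V) (hw : w ∈ F.W i) : dg (F.H i) w ≤ (F.W i).card := by
  have hWc : ((F.W i)ᶜ : Finset V).card + (F.W i).card = Fintype.card V := by
    rw [card_compl]; have := card_le_univ (F.W i); omega
  by_cases h : ∃ x, x ∉ F.W i ∧ ¬ (F.H i).Adj w x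
  · obtain ⟨x, hx, hna⟩ := h
    have hwx : w ≠ x := fun h => hx (h ▸ hw)
    have h1 := F.deg i w x hwx hna
    have h2 : ((F.W i)ᶜ : Finset V).card ≤ dg (F.H i) x + 1 := by
      have hsub : ((F.W i)ᶜ : Finset V).erase x ⊆ univ.filter (fun y => (F.H i).Adj x y) := by
        intro y hy
        rw [mem_erase, mem_compl] at hy
        rw [mem_filter]
        exact ⟨mem_univ _, F.clique i x y hx hy.2 hy.1.symm⟩
      have := card_le_card hsub
      rw [card_erase_of_mem (mem_compl.2 hx)] at this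
      show _ ≤ (univ.filter (fun y => (F.H i).Adj x y)).card + 1
      omega
    omega
  · push Not at h
    have h2 : ((F.W i)ᶜ : Finset V).card ≤ dg (F.H i) w := by
      apply card_le_card
      intro y hy
      rw [mem_compl] at hy
      rw [mem_filter]
      exact ⟨mem_univ _, h y hy⟩
    rw [mem_W] at hw
    omega

theorem obst' (i : Fin t) : ∃ k, 1 ≤ k ∧
    k + d ≤ ((F.W i).filter (fun w => ho (F.H i) (F.W i) w ≤ k)).card ∧
      (2 * (F.W i).card = ℓ + 2 * d → k + (F.W i).card < ℓ + d) :=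
  obst (F.H i) (F.W i) d ℓ F.hn F.hℓ (F.clique i) (F.nolong i ℓ le_rfl)

theorem card_ge (i : Fin t) : d + 1 ≤ (F.W i).card := by
  obtain ⟨k, h1, h2, _⟩ := F.obst' i
  have := card_le_card (filter_subset (fun w => ho (F.H i) (F.W i) w ≤ k) (F.W i))
  omega

/-- total number of neighbours outside -/
noncomputable def e (i : Fin t) : ℕ := ∑ w ∈ F.W i, ho (F.H i) (F.W i) w

theorem e_le (i : Fin t) : (F.e i : ℤ) ≤ (F.W i).card * ((F.W i).card - d) := by
  obtain ⟨k, h1, h2, _⟩ := F.obst' i
  have h3 := card_le_card (filter_subset (fun w => ho (F.H i) (F.W i) w ≤ k) (F.W i))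
  have h4 := sum_bound (F.W i) (ho (F.H i) (F.W i)) (k + d) k (F.W i).card (by omega)
    (fun w hw => le_trans (ho_le_dg _ _ _) (F.lowdeg i w hw)) h2
  have h5 : (k : ℤ) + d ≤ (F.W i).card := by exact_mod_cast (show k + d ≤ (F.W i).card by omega)
  refine le_trans h4 ?_
  have h6 : (1:ℤ) ≤ k := by exact_mod_cast h1
  push_cast
  nlinarith [mul_nonneg (show (0:ℤ) ≤ k by linarith) (sub_nonneg.2 h5)]

theorem e_le' (i : Fin t) (h : 2 * (F.W i).card = ℓ + 2 * d) : ∃ k : ℕ, 1 ≤ k ∧
    k + (F.W i).card < ℓ + d ∧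
    (F.e i : ℤ) ≤ (k + d) * k + ((F.W i).card - (k + d)) * (ℓ + d - (F.W i).card) := by
  obtain ⟨k, h1, h2, h3⟩ := F.obst' i
  have h3' := h3 h
  refine ⟨k, h1, h3', ?_⟩
  have hWc : ((F.W i)ᶜ : Finset V).card + (F.W i).card = ℓ + d := by
    rw [← F.hn, card_compl]; have := card_le_univ (F.W i); omega
  have h4 := sum_bound (F.W i) (ho (F.H i) (F.W i)) (k + d) k ((F.W i)ᶜ : Finset V).card (by omega)
    (fun w _ => by
      apply card_le_card
      intro x hx
      simp only [mem_filter, mem_univ, true_and] at hx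
      exact mem_compl.2 hx.1) h2
  refine le_trans h4 ?_
  have h5 : ((((F.W i)ᶜ : Finset V).card : ℕ) : ℤ) = ℓ + d - (F.W i).card := by
    have : (((((F.W i)ᶜ : Finset V).card + (F.W i).card : ℕ)) : ℤ) = ((ℓ + d : ℕ) : ℤ) := by
      exact_mod_cast hWc
    push_cast at this
    linarith
  rw [h5]
  push_cast
  linarith

/-- neighbourhoods of `v` in two colours cover everything -/
theorem cov_deg (i j : Fin t) (hij : i ≠ j) (v : V) :
    Fintype.card V ≤ dg (F.H i) v + dg (F.H j) v + 1 := by
  have h1 : univ.erase v ⊆ univ.filter (fun w => (F.H i).Adj v w) ∪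
      univ.filter (fun w => (F.H j).Adj v w) := by
    intro w hw
    rw [mem_erase] at hw
    rw [mem_union, mem_filter, mem_filter]
    rcases F.cover i j hij v w hw.1.symm with h | h
    · exact Or.inl ⟨mem_univ _, h⟩
    · exact Or.inr ⟨mem_univ _, h⟩
  have h2 := card_le_card h1
  rw [card_erase_of_mem (mem_univ _), card_univ] at h2
  have h3 := card_union_le (univ.filter (fun w => (F.H i).Adj v w))
    (univ.filter (fun w => (F.H j).Adj v w))
  unfold dg
  omega

theorem tie_deg {i j : Fin t} (hij : i ≠ j) {v : V} (hi : v ∈ F.W i) (hj : v ∈ F.W j) :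
    2 * dg (F.H i) v + 1 = Fintype.card V := by
  have := F.cov_deg i j hij v
  rw [mem_W] at hi hj
  omega

theorem tie_excl {i j : Fin t} (hij : i ≠ j) {v : V} (hi : v ∈ F.W i) (hj : v ∈ F.W j)
    (w : V) (hw : w ≠ v) : ¬ ((F.H i).Adj v w ∧ (F.H j).Adj v w) := by
  rintro ⟨h1, h2⟩
  have hi' := F.tie_deg hij hi hj
  have hj' := F.tie_deg hij.symm hj hi
  set A := univ.filter (fun w => (F.H i).Adj v w) with hA
  set B := univ.filter (fun w => (F.H j).Adj v w) with hB
  have h3 : univ.erase v ⊆ A ∪ B := by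
    intro w hw
    rw [mem_erase] at hw
    rw [mem_union, mem_filter, mem_filter]
    rcases F.cover i j hij v w hw.1.symm with h | h
    · exact Or.inl ⟨mem_univ _, h⟩
    · exact Or.inr ⟨mem_univ _, h⟩
  have h4 := card_le_card h3
  rw [card_erase_of_mem (mem_univ _), card_univ] at h4
  have h5 := card_union_add_card_inter A B
  have h6 : 0 < (A ∩ B).card := card_pos.2 ⟨w, by simp [hA, hB, h1, h2]⟩
  have h7 : A.card = dg (F.H i) v := rfl
  have h8 : B.card = dg (F.H j) v := rfl
  have := F.hℓ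
  have := F.hn
  omega

theorem tie_cover {i j : Fin t} (hij : i ≠ j) {v : V} (hi : v ∈ F.W i) (hj : v ∈ F.W j)
    (w : V) : w ∈ F.W i ∨ w ∈ F.W j := by
  by_cases hw : w = v
  · rw [hw]; exact Or.inl hi
  · have h1 := F.tie_excl hij hi hj w hw
    have hi' := F.tie_deg hij hi hj
    have hj' := F.tie_deg hij.symm hj hi
    by_cases h2 : (F.H i).Adj v w
    · have h3 : ¬ (F.H j).Adj v w := fun h => h1 ⟨h2, h⟩
      have := F.deg j v w (Ne.symm hw) h3
      right; rw [mem_W]; omega
    · have := F.deg i v w (Ne.symm hw) h2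
      left; rw [mem_W]; omega

theorem tie_full {i j k : Fin t} (hij : i ≠ j) (hik : i ≠ k) (hjk : j ≠ k) {v : V}
    (hi : v ∈ F.W i) (hj : v ∈ F.W j) (w : V) (hw : w ≠ v) : (F.H k).Adj v w := by
  have h1 := F.tie_excl hij hi hj w hw
  by_cases h2 : (F.H i).Adj v w
  · have h3 : ¬ (F.H j).Adj v w := fun h => h1 ⟨h2, h⟩
    exact (F.cover j k hjk v w (Ne.symm hw)).resolve_left h3
  · exact (F.cover i k hik v w (Ne.symm hw)).resolve_left h2

theorem full_deg (H : SimpleGraph V) (v : V) (h : ∀ w, w ≠ v → H.Adj v w) :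
    dg H v + 1 = Fintype.card V := by
  have h1 : univ.filter (fun w => H.Adj v w) = univ.erase v := by
    ext w
    simp only [mem_filter, mem_univ, true_and, mem_erase, and_true]
    exact ⟨fun hh => hh.ne', h w⟩
  unfold dg
  rw [h1, card_erase_of_mem (mem_univ _), card_univ]
  have h2 : 0 < Fintype.card V := Fintype.card_pos_iff.2 ⟨v⟩
  omega

theorem tie_not {i j k : Fin t} (hij : i ≠ j) (hik : i ≠ k) (hjk : j ≠ k) {v : V}
    (hi : v ∈ F.W i) (hj : v ∈ F.W j) : v ∉ F.W k := by
  have h := full_deg (F.H k) v (F.tie_full hij hik hjk hi hj)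
  rw [mem_W]
  have := F.hℓ
  have := F.hn
  omega

theorem tie_half {i j : Fin t} (hij : i ≠ j) {v : V} (hi : v ∈ F.W i) (hj : v ∈ F.W j) :
    Fintype.card V + 1 ≤ 2 * (F.W j).card := by
  have hj' := F.tie_deg hij.symm hj hi
  have h1 : univ.filter (fun w => ¬ (F.H j).Adj v w) ⊆ F.W j := by
    intro w hw
    rw [mem_filter] at hw
    by_cases hwv : w = v
    · rw [hwv]; exact hj
    · have := F.deg j v w (Ne.symm hwv) hw.2
      rw [mem_W]; omega
  have h2 := card_le_card h1
  have h3 : (univ.filter (fun w => (F.H j).Adj v w)).card +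
      (univ.filter (fun w => ¬ (F.H j).Adj v w)).card = Fintype.card V := by
    rw [card_filter_add_card_filter_not, card_univ]
  have h4 : (univ.filter (fun w => (F.H j).Adj v w)).card = dg (F.H j) v := rfl
  omega

/-- all three classes pairwise meet: contradiction when one intersection has two elements. -/
theorem bigT (hd : 1 ≤ d) {p q k : Fin t} (hpq : p ≠ q) (hpk : p ≠ k) (hqk : q ≠ k)
    (hk : ∀ y, y ∈ F.W p ∩ F.W q ∨ (y ∈ F.W k ∧ 2 * dg (F.H k) y + 1 = Fintype.card V))
    (hz : ∃ z, z ∈ F.W k ∧ 2 * dg (F.H k) z + 1 = Fintype.card V ∧ z ∉ F.W p ∩ F.W q)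
    (hT : 2 ≤ (F.W p ∩ F.W q).card) : False := by
  obtain ⟨z, hzk, hzd, hzT⟩ := hz
  set T := F.W p ∩ F.W q with hTdef
  have hfull : ∀ y ∈ T, ∀ w, w ≠ y → (F.H k).Adj y w := by
    intro y hy w hw
    rw [hTdef, mem_inter] at hy
    exact F.tie_full hpq hpk hqk hy.1 hy.2 w hw
  have hSc : (univ.erase z : Finset V).card = Fintype.card V - 1 := by
    rw [card_erase_of_mem (mem_univ _), card_univ]
  have hℓ := F.hℓ
  have hn := F.hn
  obtain ⟨κ, hκ1, hκ2, hκ3⟩ := posa_rel (F.H k) (univ.erase z) (by omega)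
    (by rw [hSc]; exact F.nolong k _ (by omega))
  rw [hSc] at hκ2
  have hdrop : ∀ v, dg (F.H k) v ≤ ((univ.erase z).filter (fun w => (F.H k).Adj v w)).card + 1 := by
    intro v
    have h1 : univ.filter (fun w => (F.H k).Adj v w) ⊆
        insert z ((univ.erase z).filter (fun w => (F.H k).Adj v w)) := by
      intro w hw
      rw [mem_filter] at hw
      rw [mem_insert, mem_filter, mem_erase]
      by_cases hwz : w = z
      · exact Or.inl hwz
      · exact Or.inr ⟨⟨hwz, mem_univ _⟩, hw.2⟩
    exact le_trans (card_le_card h1) (card_insert_le _ _)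
  have hdrop2 : ∀ v, ¬ (F.H k).Adj v z →
      dg (F.H k) v ≤ ((univ.erase z).filter (fun w => (F.H k).Adj v w)).card := by
    intro v hv
    apply card_le_card
    intro w hw
    rw [mem_filter] at hw
    rw [mem_filter, mem_erase]
    exact ⟨⟨fun h => hv (h ▸ hw.2), mem_univ _⟩, hw.2⟩
  set low := (univ.erase z).filter
    (fun v => ((univ.erase z).filter (fun w => (F.H k).Adj v w)).card ≤ κ) with hlow
  have hlowprop : ∀ v ∈ low, v ∉ T ∧ (F.H k).Adj z v ∧ dg (F.H k) z ≤ κ + 1 := by
    intro v hv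
    rw [hlow, mem_filter] at hv
    have hvT : v ∉ T := by
      intro hvT
      have h1 := full_deg (F.H k) v (hfull v hvT)
      have h2 := hdrop v
      have h3 := hv.2
      omega
    have hvd : 2 * dg (F.H k) v + 1 = Fintype.card V := by
      rcases hk v with h | h
      · exact absurd h hvT
      · exact h.2
    refine ⟨hvT, ?_, ?_⟩
    · by_contra hna
      have h2 := hdrop2 v (fun h => hna h.symm)
      have h3 := hv.2
      omega
    · have h2 := hdrop v
      have h3 := hv.2
      omega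
  obtain ⟨v0, hv0⟩ := card_pos.1 (show 0 < low.card by omega)
  have hκz := (hlowprop v0 hv0).2.2
  have hsub : low ∪ T ⊆ univ.filter (fun w => (F.H k).Adj z w) := by
    intro v hv
    rw [mem_union] at hv
    rw [mem_filter]
    refine ⟨mem_univ _, ?_⟩
    rcases hv with hv | hv
    · exact (hlowprop v hv).2.1
    · exact (hfull v hv z (fun h => hzT (h ▸ hv))).symm
  have hdisj : Disjoint low T := by
    rw [Finset.disjoint_left]
    intro v hv
    exact (hlowprop v hv).1
  have h5 := card_le_card hsub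
  rw [card_union_of_disjoint hdisj] at h5
  have h6 : (univ.filter (fun w => (F.H k).Adj z w)).card = dg (F.H k) z := rfl
  omega

theorem disj (ht : 3 ≤ t) (htd : 4 ≤ t ∨ 1 ≤ d) (i j : Fin t) (hij : i ≠ j) :
    Disjoint (F.W i) (F.W j) := by
  rw [Finset.disjoint_left]
  intro v hvi hvj
  have hℓ := F.hℓ
  have hn := F.hn
  -- third colour
  obtain ⟨k, hki, hkj⟩ : ∃ k : Fin t, k ≠ i ∧ k ≠ j := by
    have h1 : 0 < ((univ.erase i).erase j : Finset (Fin t)).card := by
      rw [card_erase_of_mem (by simp [hij.symm]), card_erase_of_mem (mem_univ _), card_univ,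
        Fintype.card_fin]
      omega
    obtain ⟨k, hk⟩ := card_pos.1 h1
    rw [mem_erase, mem_erase] at hk
    exact ⟨k, hk.2.1, hk.1⟩
  obtain ⟨w, hw⟩ := card_pos.1 (show 0 < (F.W k).card by have := F.card_ge k; omega)
  -- symmetric core
  have core : ∀ p q : Fin t, p ≠ q → k ≠ p → k ≠ q → v ∈ F.W p → v ∈ F.W q → w ∈ F.W p → False := by
    intro p q hpq hkp hkq hvp hvq hwp
    have h1 := F.tie_half hpq hvp hvq
    have h2 := F.tie_half hkp.symm hwp hw
    have h3 : 0 < (F.W q ∩ F.W k).card := by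
      have := card_union_add_card_inter (F.W q) (F.W k)
      have h4 := card_le_univ (F.W q ∪ F.W k)
      omega
    obtain ⟨x, hx⟩ := card_pos.1 h3
    rw [mem_inter] at hx
    have c1 := F.tie_cover hpq hvp hvq
    have c2 := F.tie_cover hkp.symm hwp hw
    have c3 := F.tie_cover hkq.symm hx.1 hx.2
    rcases htd with ht4 | hd
    · obtain ⟨l, hlp, hlq, hlk⟩ : ∃ l : Fin t, l ≠ p ∧ l ≠ q ∧ l ≠ k := by
        have h1 : 0 < (((univ.erase p).erase q).erase k : Finset (Fin t)).card := by
          rw [card_erase_of_mem (by simp [hkp, hkq]), card_erase_of_mem (by simp [hpq.symm]),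
            card_erase_of_mem (mem_univ _), card_univ, Fintype.card_fin]
          omega
        obtain ⟨l, hl⟩ := card_pos.1 h1
        rw [mem_erase, mem_erase, mem_erase] at hl
        exact ⟨l, hl.2.2.1, hl.2.1, hl.1⟩
      obtain ⟨y, hy⟩ := card_pos.1 (show 0 < (F.W l).card by have := F.card_ge l; omega)
      rcases c1 y with a | a
      · rcases c3 y with b | b
        · exact F.tie_not hpq hlp.symm hlq.symm a b hy
        · exact F.tie_not hkp.symm hlp.symm hlk.symm a b hy
      · rcases c2 y with b | b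
        · exact F.tie_not hpq hlp.symm hlq.symm b a hy
        · exact F.tie_not hkq.symm hlq.symm hlk.symm a b hy
    · -- each vertex in exactly two classes
      have hcov : (univ : Finset V) ⊆ (F.W p ∩ F.W q) ∪ ((F.W p ∩ F.W k) ∪ (F.W q ∩ F.W k)) := by
        intro y _
        simp only [mem_union, mem_inter]
        have a1 := c1 y
        have a2 := c2 y
        have a3 := c3 y
        tauto
      have hcard := card_le_card hcov
      have hu1 := card_union_le (F.W p ∩ F.W q) ((F.W p ∩ F.W k) ∪ (F.W q ∩ F.W k))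
      have hu2 := card_union_le (F.W p ∩ F.W k) (F.W q ∩ F.W k)
      rw [card_univ] at hcard
      have hbig : 2 ≤ (F.W p ∩ F.W q).card ∨ 2 ≤ (F.W p ∩ F.W k).card ∨
          2 ≤ (F.W q ∩ F.W k).card := by omega
      rcases hbig with hb | hb | hb
      · refine F.bigT hd hpq hkp.symm hkq.symm ?_ ⟨w, hw, F.tie_deg hkp hw hwp, ?_⟩ hb
        · intro y
          rcases c2 y with a | a
          · rcases c3 y with b | b
            · exact Or.inl (mem_inter.2 ⟨a, b⟩)
            · exact Or.inr ⟨b, F.tie_deg hkp b a⟩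
          · rcases c1 y with b | b
            · exact Or.inr ⟨a, F.tie_deg hkp a b⟩
            · exact Or.inr ⟨a, F.tie_deg hkq a b⟩
        · intro hh
          rw [mem_inter] at hh
          exact F.tie_not hpq hkp.symm hkq.symm hh.1 hh.2 hw
      · refine F.bigT hd hkp.symm hpq hkq ?_ ⟨v, hvq, F.tie_deg hpq.symm hvq hvp, ?_⟩ hb
        · intro y
          rcases c1 y with a | a
          · rcases c3 y with b | b
            · exact Or.inr ⟨b, F.tie_deg hpq.symm b a⟩
            · exact Or.inl (mem_inter.2 ⟨a, b⟩)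
          · rcases c2 y with b | b
            · exact Or.inr ⟨a, F.tie_deg hpq.symm a b⟩
            · exact Or.inr ⟨a, F.tie_deg hkq.symm a b⟩
        · intro hh
          rw [mem_inter] at hh
          exact F.tie_not hkp.symm hpq hkq hh.1 hh.2 hvq
      · refine F.bigT hd hkq.symm hpq.symm hkp ?_ ⟨v, hvp, F.tie_deg hpq hvp hvq, ?_⟩ hb
        · intro y
          rcases c1 y with a | a
          · rcases c3 y with b | b
            · exact Or.inr ⟨a, F.tie_deg hpq a b⟩
            · exact Or.inr ⟨a, F.tie_deg hkp.symm a b⟩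
          · rcases c2 y with b | b
            · exact Or.inr ⟨b, F.tie_deg hpq b a⟩
            · exact Or.inl (mem_inter.2 ⟨a, b⟩)
        · intro hh
          rw [mem_inter] at hh
          exact F.tie_not hkq.symm hpq.symm hkp hh.1 hh.2 hvp
  rcases F.tie_cover hij hvi hvj w with h | h
  · exact core i j hij hki hkj hvi hvj h
  · exact core j i hij.symm hkj hki hvj hvi h

end Fam

end R72.Cyc
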