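import Pool.Agent.R72.Cyc.Exact
import Pool.Agent.R72.Cyc.Closure

open Finset
open scoped Classical

namespace R72.Cyc

theorem per_mod {V : Type*} {A : V → V → Prop} {m : ℕ} {c : ℕ → V} (h : IsCyc A m c) (i : ℕ) :
    c i = c (i % m) := by
  have h2 : Function.Periodic c m := h.2.2.1
  exact (h2.map_mod_nat i).symm

theorem layer_no_cyc {V : Type*} [Fintype V] {t ℓ d : ℕ} (χ : V → V → Fin t)
    (hχ : ∀ x y, χ x y = χ y x) (j : Fin t) (L B : Finset V)
    (h : ∀ v ∈ L, ∀ w, w ∉ B → w ≠ v → χ v w = j) (hn : Fintype.card V = ℓ + d)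
    (h1 : B.card + d ≤ L.card) (h2 : B.card = 0 → d + 1 ≤ L.card) (h3 : 2 * B.card < ℓ) :
    ¬ HasCyc (Av χ j) ℓ := by
  rintro ⟨c, hc⟩
  obtain ⟨h3', hadj, hper, hinj⟩ := hc
  have hstep : ∀ i, c i ∈ L → c (i+1) ∈ B := by
    intro i hi
    by_contra hB
    exact (hadj i).2 (h _ hi _ hB (hadj i).1.symm)
  have hstep' : ∀ i, c (i+1) ∈ L → c i ∈ B := by
    intro i hi
    by_contra hB
    have := h _ hi _ hB (hadj i).1
    exact (hadj i).2 (by rw [hχ]; exact this)
  have hinj' : ∀ k, Set.InjOn (fun i => c (i + k)) (range ℓ : Finset ℕ) := by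
    intro k a ha b hb hab
    rw [mem_coe, mem_range] at ha hb
    by_contra hne
    rcases lt_or_gt_of_ne hne with h | h
    · exact hinj (a+k) (b+k) (by omega) (by omega) hab
    · exact hinj (b+k) (a+k) (by omega) (by omega) hab.symm
  set X := (range ℓ).image c with hX
  have hXc : X.card = ℓ := by
    rw [hX, card_image_of_injOn (by simpa using hinj' 0), card_range]
  set FL := (range ℓ).filter (fun i => c i ∈ L) with hFL
  set FB := (range ℓ).filter (fun i => c (i+1) ∈ B) with hFB
  have hLX : L.card ≤ FL.card + d := by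
    have h4 : L ⊆ FL.image c ∪ Xᶜ := by
      intro v hv
      rw [mem_union]
      by_cases hvX : v ∈ X
      · left
        rw [hX, mem_image] at hvX
        obtain ⟨i, hi, rfl⟩ := hvX
        exact mem_image_of_mem _ (mem_filter.2 ⟨hi, hv⟩)
      · right; exact mem_compl.2 hvX
    have h5 := card_le_card h4
    have h6 := card_union_le (FL.image c) Xᶜ
    have h7 : (Xᶜ : Finset V).card = d := by rw [card_compl, hXc, hn]; omega
    have h8 : (FL.image c).card ≤ FL.card := card_image_le
    omega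
  have hsub : FL ⊆ FB := by
    intro i hi
    rw [hFL, mem_filter] at hi
    rw [hFB, mem_filter]
    exact ⟨hi.1, hstep i hi.2⟩
  have hFBle : FB.card ≤ B.card := by
    apply card_le_card_of_injOn (fun i => c (i+1))
    · intro i hi
      rw [mem_coe, hFB, mem_filter] at hi
      exact hi.2
    · intro a ha b hb hab
      rw [mem_coe, hFB, mem_filter] at ha hb
      exact hinj' 1 (mem_coe.2 ha.1) (mem_coe.2 hb.1) hab
  have hle := card_le_card hsub
  have hBpos : B.card ≠ 0 := by
    intro h0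
    have := h2 h0
    omega
  have heq : FL = FB := eq_of_subset_of_card_le hsub (by omega)
  have hpred : ∀ i, c (i+1) ∈ B → c i ∈ L := by
    intro i hi
    have hc' : IsCyc (Av χ j) ℓ c := ⟨h3', hadj, hper, hinj⟩
    have e1 : c (i % ℓ + 1) = c (i + 1) := by
      rw [per_mod hc' (i+1), per_mod hc' (i % ℓ + 1)]
      congr 1
      rw [Nat.add_mod, Nat.mod_mod, ← Nat.add_mod]
    have : i % ℓ ∈ FB := by
      rw [hFB, mem_filter, mem_range, e1]
      exact ⟨Nat.mod_lt _ (by omega), hi⟩
    rw [← heq, hFL, mem_filter] at this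
    rw [per_mod hc' i]; exact this.2
  by_cases hO : ∃ i, c i ∉ L ∧ c i ∉ B
  · obtain ⟨i, hi1, hi2⟩ := hO
    have hall : ∀ k, c (i+k) ∉ L ∧ c (i+k) ∉ B := by
      intro k
      induction k with
      | zero => exact ⟨hi1, hi2⟩
      | succ k ih => exact ⟨fun h => ih.2 (hstep' _ h), fun h => ih.1 (hpred _ h)⟩
    obtain ⟨m, hm⟩ := card_pos.1 (show 0 < FL.card by omega)
    rw [hFL, mem_filter, mem_range] at hm
    have e1 : i + (m + i * (ℓ - 1)) = m + i * ℓ := by
      obtain ⟨l', rfl⟩ : ∃ l', ℓ = l' + 1 := ⟨ℓ - 1, by omega⟩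
      simp only [Nat.add_sub_cancel]; ring
    have e2 : c (m + i * ℓ) = c m := by
      have h2' : Function.Periodic c ℓ := hper
      simpa using h2'.nat_mul i m
    have := (hall (m + i * (ℓ - 1))).1
    rw [e1, e2] at this
    exact this hm.2
  · push Not at hO
    have h9 : (range ℓ) ⊆ FL ∪ (range ℓ).filter (fun i => c i ∈ B) := by
      intro i hi
      rw [mem_union, hFL, mem_filter, mem_filter]
      by_cases hL : c i ∈ L
      · exact Or.inl ⟨hi, hL⟩
      · exact Or.inr ⟨hi, hO i hL⟩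
    have h10 := card_le_card h9
    have h11 := card_union_le FL ((range ℓ).filter (fun i => c i ∈ B))
    have h12 : ((range ℓ).filter (fun i => c i ∈ B)).card ≤ B.card := by
      apply card_le_card_of_injOn c
      · intro i hi
        rw [mem_coe, mem_filter] at hi
        exact hi.2
      · intro a ha b hb hab
        rw [mem_coe, mem_filter] at ha hb
        exact hinj' 0 (mem_coe.2 ha.1) (mem_coe.2 hb.1) (by simpa using hab)
    rw [card_range] at h10
    omega

theorem deg1_no_cyc {V : Type*} [Fintype V] {t ℓ d : ℕ} (χ : V → V → Fin t)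
    (hχ : ∀ x y, χ x y = χ y x) (j : Fin t) (L : Finset V) (hn : Fintype.card V = ℓ + d)
    (h1 : d + 1 ≤ L.card) (h : ∀ v ∈ L, ∀ w w', Av χ j v w → Av χ j v w' → w = w') :
    ¬ HasCyc (Av χ j) ℓ := by
  rintro ⟨c, hc⟩
  obtain ⟨h3', hadj, hper, hinj⟩ := hc
  set X := (range ℓ).image c with hX
  have hXc : X.card = ℓ := by
    rw [hX, card_image_of_injOn, card_range]
    intro a ha b hb hab
    rw [mem_coe, mem_range] at ha hb
    by_contra hne
    rcases lt_or_gt_of_ne hne with h | h
    · exact hinj a b (by omega) (by omega) hab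
    · exact hinj b a (by omega) (by omega) hab.symm
  have : 0 < (L ∩ X).card := by
    have := card_union_add_card_inter L X
    have := card_le_univ (L ∪ X)
    omega
  obtain ⟨v, hv⟩ := card_pos.1 this
  rw [mem_inter, hX, mem_image] at hv
  obtain ⟨hvL, i, hi, rfl⟩ := hv
  have a1 : Av χ j (c i) (c (i+1)) := hadj i
  have a2 : Av χ j (c i) (c (i+ℓ-1)) := by
    have := hadj (i+ℓ-1)
    rw [show i + ℓ - 1 + 1 = i + ℓ by omega, hper] at this
    exact Av.symm hχ _ _ this
  exact hinj (i+1) (i+ℓ-1) (by omega) (by omega) (h _ hvL _ _ a1 a2)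

theorem card_fin_filter (n : ℕ) (P : ℕ → Prop) [DecidablePred P] :
    (univ.filter (fun v : Fin n => P v)).card = ((range n).filter P).card := by
  apply card_bij (fun (v : Fin n) _ => (v : ℕ))
  · intro a ha
    rw [mem_filter] at ha
    rw [mem_filter, mem_range]
    exact ⟨a.2, ha.2⟩
  · intro a _ b _ hab
    exact Fin.ext hab
  · intro b hb
    rw [mem_filter, mem_range] at hb
    exact ⟨⟨b, hb.1⟩, by simp [hb.2], rfl⟩

theorem card_seg (n x y : ℕ) (hy : y ≤ n) :
    (univ.filter (fun v : Fin n => x ≤ (v:ℕ) ∧ (v:ℕ) < y)).card = y - x := by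
  rw [card_fin_filter n (fun v => x ≤ v ∧ v < y)]
  have : (range n).filter (fun v => x ≤ v ∧ v < y) = Ico x y := by
    ext v
    simp only [mem_filter, mem_range, mem_Ico]
    omega
  rw [this, Nat.card_Ico]

theorem seg_no_cyc {t n ℓ d : ℕ} (χ : Fin n → Fin n → Fin t) (hχ : ∀ x y, χ x y = χ y x)
    (j : Fin t) (x y : ℕ) (hy : y ≤ n) (hxy : 2 * x + d ≤ y) (h0 : x = 0 → d + 1 ≤ y)
    (hℓ : 2 * x < ℓ) (hn : n = ℓ + d)
    (h : ∀ v w : Fin n, v ≠ w → x ≤ (v:ℕ) → (v:ℕ) < y → x ≤ (w:ℕ) → χ v w = j) :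
    ¬ HasCyc (Av χ j) ℓ := by
  have hB : (univ.filter (fun v : Fin n => (v:ℕ) < x)).card = x := by
    have := card_seg n 0 x (by omega)
    simpa using this
  have hL := card_seg n x y hy
  refine layer_no_cyc (d := d) χ hχ j (univ.filter (fun v : Fin n => x ≤ (v:ℕ) ∧ (v:ℕ) < y))
    (univ.filter (fun v : Fin n => (v:ℕ) < x)) ?_ (by rw [Fintype.card_fin]; exact hn)
    (by omega) (by omega) (by omega)
  intro v hv w hw hwv
  rw [mem_filter] at hv hw
  exact h v w (Ne.symm hwv) hv.2.1 hv.2.2 (by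
    by_contra hh
    exact hw ⟨mem_univ _, by omega⟩)

/-- layer index -/
def lay (t : ℕ) (a : ℕ → ℕ) (v : ℕ) : ℕ := ((range (t-1)).filter (fun j => a (j+1) ≤ v)).card

theorem lay_lt (t : ℕ) (ht : 0 < t) (a : ℕ → ℕ) (v : ℕ) : lay t a v < t := by
  have : lay t a v ≤ t - 1 := by
    unfold lay
    refine le_trans (card_le_card (filter_subset _ _)) (by rw [card_range])
  omega

theorem lay_eq (t : ℕ) (a : ℕ → ℕ) (hmono : Monotone a) (v j : ℕ) (hj : j < t)
    (h1 : a j ≤ v) (h2 : j + 1 < t → v < a (j+1)) : lay t a v = j := by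
  unfold lay
  have : (range (t-1)).filter (fun i => a (i+1) ≤ v) = range j := by
    ext i
    simp only [mem_filter, mem_range]
    constructor
    · rintro ⟨h3, h4⟩
      by_contra hh
      push Not at hh
      have := h2 (by omega)
      have := hmono (show j + 1 ≤ i + 1 by omega)
      omega
    · intro h3
      refine ⟨by omega, le_trans (hmono (show i + 1 ≤ j by omega)) h1⟩
  rw [this, card_range]

end R72.Cyc
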