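import Pool.Agent.R72.Cyc.Lower

open Finset

namespace R72.Cyc

/-- a colouring of `K_n` without `ℓ`-cycle missing a colour exists -/
def Bad (t ℓ n : ℕ) : Prop :=
  ∃ χ : Fin n → Fin n → Fin t, (∀ x y, χ x y = χ y x) ∧ ∀ j, ¬ HasCyc (Av χ j) ℓ

theorem gen_layer {t n ℓ d : ℕ} (a : ℕ → ℕ) (hmono : Monotone a)
    (χ : Fin n → Fin n → Fin t) (hχ : ∀ x y, χ x y = χ y x) (j : Fin t)
    (hcol : ∀ v w : Fin n, v ≠ w → a j ≤ min (v:ℕ) w → ((χ v w : Fin t) : ℕ) = lay t a (min (v:ℕ) w))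
    (hn : n = ℓ + d) (hℓ : 2 * a j < ℓ)
    (h1 : (j:ℕ) + 1 < t → 2 * a j + d ≤ a (j+1) ∧ a (j+1) ≤ n ∧ d + 1 ≤ a (j+1))
    (h2 : (j:ℕ) + 1 = t → 2 * a j + d ≤ n ∧ d + 1 ≤ n) : ¬ HasCyc (Av χ j) ℓ := by
  have hj := j.2
  by_cases hjt : (j:ℕ) + 1 < t
  · obtain ⟨b1, b2, b3⟩ := h1 hjt
    refine seg_no_cyc (d := d) χ hχ j (a j) (a (j+1)) b2 b1 (fun _ => b3) hℓ hn ?_
    intro v w hvw hv1 hv2 hw
    apply Fin.ext
    rw [hcol v w hvw (by omega)]
    exact lay_eq t a hmono _ j hj (by omega) (fun _ => by omega)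
  · have hjt' : (j:ℕ) + 1 = t := by omega
    obtain ⟨b1, b2⟩ := h2 hjt'
    refine seg_no_cyc (d := d) χ hχ j (a j) n le_rfl b1 (fun _ => b2) hℓ hn ?_
    intro v w hvw hv1 hv2 hw
    apply Fin.ext
    rw [hcol v w hvw (by omega)]
    exact lay_eq t a hmono _ j hj (by omega) (fun h => absurd h (by omega))

/-! ### general d -/

def aG (d : ℕ) : ℕ → ℕ
  | 0 => 0
  | 1 => d + 1
  | (j+2) => 2 * aG d (j+1) + d

theorem aG_closed (d j : ℕ) : aG d (j+1) + d = 2 ^ j * (2 * d + 1) := by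
  induction j with
  | zero => simp [aG]; ring
  | succ j ih =>
    show 2 * aG d (j+1) + d + d = _
    rw [pow_succ, mul_comm (2^j) 2, mul_assoc, ← ih]; ring

theorem aG_mono (d : ℕ) : Monotone (aG d) := by
  apply monotone_nat_of_le_succ
  intro j
  match j with
  | 0 => simp [aG]
  | (j+1) => show aG d (j+1) ≤ 2 * aG d (j+1) + d; omega

theorem bad_general (t ℓ d : ℕ) (ht : 2 ≤ t) (h : 2 ^ (t-1) * (2 * d + 1) + 1 ≤ ℓ + 2 * d) :
    Bad t ℓ (ℓ + d) := by
  have ht0 : 0 < t := by omega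
  refine ⟨fun v w => ⟨lay t (aG d) (min (v:ℕ) w), lay_lt t ht0 _ _⟩, ?_, ?_⟩
  · intro x y
    simp only [min_comm]
  · intro j
    -- final threshold
    have hlast : 2 * aG d (t-1) + 1 ≤ ℓ := by
      have h1 := aG_closed d (t-2)
      rw [show t - 2 + 1 = t - 1 by omega] at h1
      have h2 : 2 ^ (t-1) = 2 * 2 ^ (t-2) := by
        rw [show t - 1 = (t-2) + 1 by omega, pow_succ]; ring
      rw [h2, mul_assoc, ← h1] at h
      omega
    have hle : ∀ i, i < t → aG d i ≤ aG d (t-1) := fun i hi => aG_mono d (by omega)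
    have hj := j.2
    refine gen_layer (d := d) (aG d) (aG_mono d) _ ?_ j (fun _ _ _ _ => rfl) rfl ?_ ?_ ?_
    · intro x y
      simp only [min_comm]
    · have := hle j hj
      omega
    · intro hjt
      have h3 := hle (j+1) hjt
      have h4 : d + 1 ≤ aG d (j+1) := aG_mono d (show 1 ≤ (j:ℕ) + 1 by omega)
      refine ⟨?_, by omega, h4⟩
      rcases Nat.eq_zero_or_pos (j:ℕ) with h5 | h5
      · rw [h5]; simp [aG]
      · obtain ⟨i, hi⟩ : ∃ i, (j:ℕ) = i + 1 := ⟨j - 1, by omega⟩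
        rw [hi]
        show 2 * aG d (i+1) + d ≤ 2 * aG d (i+1) + d
        exact le_rfl
    · intro hjt
      have : (j:ℕ) = t - 1 := by omega
      have h4 : d + 1 ≤ aG d (t-1) := aG_mono d (show 1 ≤ t - 1 by omega)
      rw [this]
      omega

/-! ### d = 1 -/

def a1 : ℕ → ℕ
  | 0 => 0
  | 1 => 2
  | 2 => 4
  | (j+3) => 2 * a1 (j+2) + 1

theorem a1_closed (j : ℕ) : a1 (j+2) + 1 = 5 * 2 ^ j := by
  induction j with
  | zero => simp [a1]
  | succ j ih =>
    show 2 * a1 (j+2) + 1 + 1 = _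
    rw [pow_succ]
    omega

theorem a1_mono : Monotone a1 := by
  apply monotone_nat_of_le_succ
  intro j
  match j with
  | 0 => simp [a1]
  | 1 => simp [a1]
  | (j+2) => show a1 (j+2) ≤ 2 * a1 (j+2) + 1; omega

/-- the colour number of the pair `v, w` -/
def col1 (t v w : ℕ) : ℕ :=
  if (min v w = 0 ∧ max v w = 2) ∨ (min v w = 1 ∧ max v w = 3) then 1 else lay t a1 (min v w)

theorem col1_lt (t : ℕ) (ht : 3 ≤ t) (v w : ℕ) : col1 t v w < t := by
  unfold col1
  split_ifs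
  · omega
  · exact lay_lt t (by omega) _ _

theorem col1_comm (t v w : ℕ) : col1 t v w = col1 t w v := by
  unfold col1; rw [min_comm, max_comm]

theorem lay_a1 (t : ℕ) (ht : 3 ≤ t) (v : ℕ) :
    (v < 2 → lay t a1 v = 0) ∧ (2 ≤ v → v < 4 → lay t a1 v = 1) := by
  constructor
  · intro hv
    exact lay_eq t a1 a1_mono v 0 (by omega) (by simp [a1]) (fun _ => by simpa [a1] using hv)
  · intro h1 h2
    exact lay_eq t a1 a1_mono v 1 (by omega) (by simpa [a1] using h1) (fun _ => by simpa [a1] using h2)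

theorem bad_one (t ℓ : ℕ) (ht : 3 ≤ t) (h : 5 * 2 ^ (t-2) ≤ ℓ + 1) : Bad t ℓ (ℓ + 1) := by
  have hlast : 2 * a1 (t-1) + 1 ≤ ℓ := by
    have h1 := a1_closed (t-3)
    rw [show t - 3 + 2 = t - 1 by omega] at h1
    have h2 : 2 ^ (t-2) = 2 * 2 ^ (t-3) := by
      rw [show t - 2 = (t-3) + 1 by omega, pow_succ]; ring
    rw [h2] at h
    omega
  have hℓ : 9 ≤ ℓ := by
    have : a1 2 ≤ a1 (t-1) := a1_mono (by omega)
    have e : a1 2 = 4 := rfl
    omega
  have hsym : ∀ x y : Fin (ℓ+1), (⟨col1 t x y, col1_lt t ht _ _⟩ : Fin t) = ⟨col1 t y x, col1_lt t ht _ _⟩ := by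
    intro x y
    simp only [col1_comm t x y]
  refine ⟨fun v w => ⟨col1 t v w, col1_lt t ht _ _⟩, hsym, ?_⟩
  intro j
  have hj := j.2
  have hle : ∀ i, i < t → a1 i ≤ a1 (t-1) := fun i hi => a1_mono (by omega)
  by_cases hj2 : 2 ≤ (j:ℕ)
  · refine gen_layer (d := 1) a1 a1_mono _ hsym j ?_ rfl ?_ ?_ ?_
    · intro v w _ hvw
      have h4 : 4 ≤ a1 j := a1_mono hj2
      show col1 t v w = _
      unfold col1
      rw [if_neg (by omega)]
    · have := hle j hj
      omega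
    · intro hjt
      have h3 := hle (j+1) hjt
      obtain ⟨i, hi⟩ : ∃ i, (j:ℕ) = i + 2 := ⟨j - 2, by omega⟩
      have e : a1 ((j:ℕ)+1) = 2 * a1 j + 1 := by rw [hi]; rfl
      have h4 : 4 ≤ a1 j := a1_mono hj2
      omega
    · intro hjt
      have : (j:ℕ) = t - 1 := by omega
      rw [this]
      omega
  · -- colours 0 and 1
    by_cases hj0 : (j:ℕ) = 0
    · refine deg1_no_cyc (d := 1) _ hsym j {⟨0, by omega⟩, ⟨1, by omega⟩}
        (by rw [Fintype.card_fin]) (by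
          rw [card_pair]
          intro hh
          have := congrArg Fin.val hh
          simp at this) ?_
      have key : ∀ v w : Fin (ℓ+1), (v:ℕ) < 2 → v ≠ w → col1 t v w ≠ 0 → (w:ℕ) = v + 2 := by
        intro v w hv hvw hc
        have hvw' : (v:ℕ) ≠ w := fun h => hvw (Fin.ext h)
        unfold col1 at hc
        split_ifs at hc with h1
        · omega
        · exact absurd ((lay_a1 t ht (min (v:ℕ) w)).1 (by omega)) hc
      intro v hv w w' h1 h2
      have hv' : (v:ℕ) < 2 := by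
        simp only [mem_insert, mem_singleton] at hv
        rcases hv with rfl | rfl <;> simp
      have c1 : col1 t v w ≠ 0 := fun hh => h1.2 (Fin.ext (by rw [hj0]; exact hh))
      have c2 : col1 t v w' ≠ 0 := fun hh => h2.2 (Fin.ext (by rw [hj0]; exact hh))
      have k1 := key v w hv' h1.1 c1
      have k2 := key v w' hv' h2.1 c2
      exact Fin.ext (by omega)
    · have hj1 : (j:ℕ) = 1 := by omega
      refine deg1_no_cyc (d := 1) _ hsym j {⟨2, by omega⟩, ⟨3, by omega⟩}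
        (by rw [Fintype.card_fin]) (by
          rw [card_pair]
          intro hh
          have := congrArg Fin.val hh
          simp at this) ?_
      have key : ∀ v w : Fin (ℓ+1), 2 ≤ (v:ℕ) → (v:ℕ) < 4 → v ≠ w → col1 t v w ≠ 1 →
          (w:ℕ) + v = 3 := by
        intro v w hv hv2 hvw hc
        have hvw' : (v:ℕ) ≠ w := fun h => hvw (Fin.ext h)
        unfold col1 at hc
        split_ifs at hc with h1
        · omega
        · by_contra hne
          by_cases hw : (w:ℕ) < 2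
          · omega
          · exact hc ((lay_a1 t ht (min (v:ℕ) w)).2 (by omega) (by omega))
      intro v hv w w' h1 h2
      have hv' : 2 ≤ (v:ℕ) ∧ (v:ℕ) < 4 := by
        simp only [mem_insert, mem_singleton] at hv
        rcases hv with rfl | rfl <;> simp
      have c1 : col1 t v w ≠ 1 := fun hh => h1.2 (Fin.ext (by rw [hj1]; exact hh))
      have c2 : col1 t v w' ≠ 1 := fun hh => h2.2 (Fin.ext (by rw [hj1]; exact hh))
      have k1 := key v w hv'.1 hv'.2 h1.1 c1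
      have k2 := key v w' hv'.1 hv'.2 h2.1 c2
      exact Fin.ext (by omega)

/-! ### d = 0 -/

def a0 : ℕ → ℕ
  | 0 => 0
  | 1 => 1
  | 2 => 2
  | 3 => 3
  | (j+4) => 2 * a0 (j+3)

theorem a0_closed (j : ℕ) : a0 (j+3) = 3 * 2 ^ j := by
  induction j with
  | zero => simp [a0]
  | succ j ih =>
    show 2 * a0 (j+3) = _
    rw [pow_succ]
    omega

theorem a0_mono : Monotone a0 := by
  apply monotone_nat_of_le_succ
  intro j
  match j with
  | 0 => simp [a0]
  | 1 => simp [a0]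
  | 2 => simp [a0]
  | (j+3) => show a0 (j+3) ≤ 2 * a0 (j+3); omega

def col0 (t v w : ℕ) : ℕ :=
  if min v w = 0 ∧ max v w = 2 then 2 else lay t a0 (min v w)

theorem col0_lt (t : ℕ) (ht : 3 ≤ t) (v w : ℕ) : col0 t v w < t := by
  unfold col0
  split_ifs
  · omega
  · exact lay_lt t (by omega) _ _

theorem col0_comm (t v w : ℕ) : col0 t v w = col0 t w v := by
  unfold col0; rw [min_comm, max_comm]

theorem lay_a0 (t : ℕ) (ht : 3 ≤ t) :
    lay t a0 0 = 0 ∧ lay t a0 1 = 1 ∧ lay t a0 2 = 2 := by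
  refine ⟨?_, ?_, ?_⟩
  · exact lay_eq t a0 a0_mono 0 0 (by omega) (by simp [a0]) (fun _ => by simp [a0])
  · exact lay_eq t a0 a0_mono 1 1 (by omega) (by simp [a0]) (fun _ => by simp [a0])
  · exact lay_eq t a0 a0_mono 2 2 (by omega) (by simp [a0]) (fun _ => by simp [a0])

theorem bad_zero (t ℓ : ℕ) (ht : 3 ≤ t) (hℓ3 : 3 ≤ ℓ) (h : 4 ≤ t → 3 * 2 ^ (t-3) + 1 ≤ ℓ) :
    Bad t ℓ ℓ := by
  have hsym : ∀ x y : Fin ℓ, (⟨col0 t x y, col0_lt t ht _ _⟩ : Fin t) = ⟨col0 t y x, col0_lt t ht _ _⟩ := by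
    intro x y
    simp only [col0_comm t x y]
  refine ⟨fun v w => ⟨col0 t v w, col0_lt t ht _ _⟩, hsym, ?_⟩
  intro j
  have hj := j.2
  obtain ⟨l0, l1, l2⟩ := lay_a0 t ht
  by_cases hj3 : 3 ≤ (j:ℕ)
  · have hlast : 2 * a0 (t-1) + 1 ≤ ℓ := by
      have h1 := a0_closed (t-4)
      rw [show t - 4 + 3 = t - 1 by omega] at h1
      have h2 : 2 ^ (t-3) = 2 * 2 ^ (t-4) := by
        rw [show t - 3 = (t-4) + 1 by omega, pow_succ]; ring
      have h3 := h (by omega)
      rw [h2] at h3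
      omega
    have hle : ∀ i, i < t → a0 i ≤ a0 (t-1) := fun i hi => a0_mono (by omega)
    refine gen_layer (d := 0) a0 a0_mono _ hsym j ?_ rfl ?_ ?_ ?_
    · intro v w _ hvw
      have h4 : 3 ≤ a0 j := a0_mono hj3
      show col0 t v w = _
      unfold col0
      rw [if_neg (by omega)]
    · have := hle j hj
      omega
    · intro hjt
      have h3 := hle (j+1) hjt
      obtain ⟨i, hi⟩ : ∃ i, (j:ℕ) = i + 3 := ⟨j - 3, by omega⟩
      have e : a0 ((j:ℕ)+1) = 2 * a0 j := by rw [hi]; rfl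
      have h4 : 3 ≤ a0 j := a0_mono hj3
      omega
    · intro hjt
      have : (j:ℕ) = t - 1 := by omega
      rw [this]
      omega
  · -- colours 0, 1, 2: vertex j has one neighbour
    have hjl : (j:ℕ) < ℓ := by omega
    refine deg1_no_cyc (d := 0) _ hsym j {⟨j, hjl⟩} (by rw [Fintype.card_fin]; rfl)
      (by rw [card_singleton]) ?_
    have key : ∀ w : Fin ℓ, (j:ℕ) ≠ w → col0 t j w ≠ j →
        ((j:ℕ) = 0 → (w:ℕ) = 2) ∧ ((j:ℕ) = 1 → (w:ℕ) = 0) ∧ ((j:ℕ) = 2 → (w:ℕ) = 1) := by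
      intro w hjw hc
      unfold col0 at hc
      refine ⟨?_, ?_, ?_⟩
      · intro h0
        rw [h0] at hc hjw
        by_contra hw
        rw [if_neg (by omega), show min 0 (w:ℕ) = 0 by omega, l0] at hc
        exact hc rfl
      · intro h0
        rw [h0] at hc hjw
        by_contra hw
        rw [if_neg (by omega), show min 1 (w:ℕ) = 1 by omega, l1] at hc
        exact hc rfl
      · intro h0
        rw [h0] at hc hjw
        by_contra hw
        by_cases hw0 : (w:ℕ) = 0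
        · rw [if_pos (by omega)] at hc
          exact hc rfl
        · rw [if_neg (by omega), show min 2 (w:ℕ) = 2 by omega, l2] at hc
          exact hc rfl
    intro v hv w w' h1 h2
    rw [mem_singleton] at hv
    subst hv
    have n1 : (j:ℕ) ≠ w := fun hh => h1.1 (Fin.ext hh)
    have n2 : (j:ℕ) ≠ w' := fun hh => h2.1 (Fin.ext hh)
    have c1 : col0 t j w ≠ j := fun hh => h1.2 (Fin.ext hh)
    have c2 : col0 t j w' ≠ j := fun hh => h2.2 (Fin.ext hh)
    have k1 := key w n1 c1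
    have k2 := key w' n2 c2
    have : (j:ℕ) = 0 ∨ (j:ℕ) = 1 ∨ (j:ℕ) = 2 := by omega
    apply Fin.ext
    rcases this with h | h | h
    · rw [k1.1 h, k2.1 h]
    · rw [k1.2.1 h, k2.2.1 h]
    · rw [k1.2.2 h, k2.2.2 h]

end R72.Cyc
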