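import Pool.Agent.R72.Cyc.Count
import Pool.Agent.R72.Cyc.Lower2

open Finset

namespace R72.Cyc

theorem bad_mono {t ℓ n n' : ℕ} (h : Bad t ℓ n) (hn : n' ≤ n) : Bad t ℓ n' := by
  obtain ⟨χ, h1, h2⟩ := h
  refine ⟨fun x y => χ (Fin.castLE hn x) (Fin.castLE hn y), fun x y => h1 _ _, ?_⟩
  intro j hj
  refine h2 j (hj.map (Fin.castLE hn) (Fin.castLE_injective hn) ?_)
  intro x y hxy
  exact ⟨fun hh => hxy.1 (Fin.castLE_injective hn hh), hxy.2⟩

theorem bad_small {t ℓ n : ℕ} (ht : 0 < t) (hn : n < ℓ) : Bad t ℓ n := by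
  refine ⟨fun _ _ => ⟨0, ht⟩, fun _ _ => rfl, ?_⟩
  intro j hj
  have := hj.le_card
  rw [Fintype.card_fin] at this
  omega

theorem upper_col {t ℓ d : ℕ} (ht : 3 ≤ t) (htd : d = 0 → 4 ≤ t) (hℓ : 4 ≤ ℓ)
    (hbad : Bad t ℓ (ℓ + d)) :
    (d = 0 → 3 * 2 ^ (t-3) + 1 ≤ ℓ) ∧ (d = 1 → 5 * 2 ^ (t-2) ≤ ℓ + 1) ∧
    (2 ≤ d → 2 ^ (t-1) * (2 * d + 1) + 1 ≤ ℓ + 2 * d) := by
  obtain ⟨χ, hχ, hno⟩ := hbad
  have hno' := no_longer ht χ hχ ℓ hℓ hno
  let G : Fin t → SimpleGraph (Fin (ℓ+d)) := fun j =>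
    { Adj := Av χ j
      symm := ⟨fun x y h => Av.symm hχ x y h⟩
      loopless := ⟨fun x h => h.1 rfl⟩ }
  have hG : ∀ j, NoLong (G j) ℓ := fun j m hm => hno' j m hm
  choose H hH1 hH2 hH3 using fun j => exists_max (G j) ℓ (hG j)
  let F : Fam (Fin (ℓ+d)) t ℓ d :=
    { H := H
      cover := by
        intro i j hij x y hxy
        by_cases h : χ x y = i
        · right
          exact hH1 j (show Av χ j x y from ⟨hxy, by rw [h]; exact hij⟩)
        · left
          exact hH1 i (show Av χ i x y from ⟨hxy, h⟩)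
      deg := fun i x y hxy hn => max_deg (H i) ℓ (hH2 i) (hH3 i) x y hxy hn
      nolong := hH2
      hn := Fintype.card_fin _
      hℓ := by omega }
  exact F.upper ht htd

theorem not_bad_three (t : ℕ) (ht : 4 ≤ t) : ¬ Bad t 3 3 := by
  rintro ⟨χ, hχ, hno⟩
  obtain ⟨a, ha⟩ : ∃ a : Fin t, a ∉ ({χ 0 1, χ 1 2, χ 0 2} : Finset (Fin t)) := by
    by_contra hh
    push Not at hh
    have h1 : (univ : Finset (Fin t)) ⊆ {χ 0 1, χ 1 2, χ 0 2} := fun x _ => hh x
    have h2 := card_le_card h1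
    have h3 : ({χ 0 1, χ 1 2, χ 0 2} : Finset (Fin t)).card ≤ 3 := card_le_three
    rw [card_univ, Fintype.card_fin] at h2
    omega
  simp only [mem_insert, mem_singleton, not_or] at ha
  refine hno a (mkCyc le_rfl (fun i => if i = 0 then 0 else if i = 1 then 1 else 2) ?_ ?_ ?_)
  · intro i j hij hj
    interval_cases j <;> interval_cases i <;> simp
  · intro i hi
    have : i = 0 ∨ i = 1 := by omega
    rcases this with rfl | rfl
    · exact ⟨by simp, fun h => ha.1 h.symm⟩
    · exact ⟨by simp, fun h => ha.2.1 h.symm⟩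
  · exact ⟨by simp, fun h => ha.2.2 (by rw [hχ]; exact h.symm)⟩

theorem bad_334 : Bad 3 3 4 := by
  refine ⟨fun x y => ⟨(if (x:ℕ) + y = 3 then 0 else if (x:ℕ) + y = 1 ∨ (x:ℕ) + y = 5 then 1 else 2),
    by split_ifs <;> omega⟩, ?_, ?_⟩
  · intro x y
    simp only [add_comm]
  · rintro j ⟨c, h3, hadj, hper, hinj⟩
    have h0 := hadj 0
    have h1 := hadj 1
    have h2 := hadj 2
    have e3 : c 3 = c 0 := hper 0
    norm_num at h0 h1 h2
    rw [e3] at h2
    generalize c 0 = x at h0 h1 h2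
    generalize c 1 = y at h0 h1 h2
    generalize c 2 = z at h0 h1 h2
    clear hper hinj e3 hadj c
    unfold Av at h0 h1 h2
    revert x y z j
    decide

theorem not_bad_335 : ¬ Bad 3 3 5 := by
  rintro ⟨χ, hχ, hno⟩
  -- all triangles rainbow: at vertex 0 four edges with three colours
  have hmap : ∃ x ∈ (univ.erase (0 : Fin 5)), ∃ y ∈ (univ.erase (0 : Fin 5)), x ≠ y ∧
      χ 0 x = χ 0 y := by
    apply exists_ne_map_eq_of_card_lt_of_maps_to (t := (univ : Finset (Fin 3)))
    · simp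
    · intro x _; exact mem_coe.2 (mem_univ _)
  obtain ⟨x, hx, y, hy, hxy, hc⟩ := hmap
  rw [mem_erase] at hx hy
  obtain ⟨a, ha⟩ : ∃ a : Fin 3, a ≠ χ 0 x ∧ a ≠ χ x y := by
    by_contra hh
    push Not at hh
    have h1 : (univ : Finset (Fin 3)) ⊆ {χ 0 x, χ x y} := by
      intro a _
      rw [mem_insert, mem_singleton]
      by_cases h : a = χ 0 x
      · exact Or.inl h
      · exact Or.inr (hh a h)
    have h2 := card_le_card h1
    have h3 : ({χ 0 x, χ x y} : Finset (Fin 3)).card ≤ 2 := card_le_two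
    rw [card_univ, Fintype.card_fin] at h2
    omega
  refine hno a (mkCyc le_rfl (fun i => if i = 0 then 0 else if i = 1 then x else y) ?_ ?_ ?_)
  · intro i j hij hj
    interval_cases j <;> interval_cases i <;> simp [hxy, hx.1.symm, hy.1.symm]
  · intro i hi
    have : i = 0 ∨ i = 1 := by omega
    rcases this with rfl | rfl
    · exact ⟨by simpa using hx.1.symm, fun h => ha.1 h.symm⟩
    · exact ⟨by simpa using hxy, fun h => ha.2 h.symm⟩
  · refine ⟨by simpa using hy.1, fun h => ha.1 ?_⟩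
    have h' : χ y 0 = a := h
    rw [← h', hχ, hc]

/-- The closed formula. -/
def cycleValue (t ℓ : ℕ) : ℕ :=
  if t = 3 ∧ ℓ = 3 then 5
  else if ℓ ≤ 3 * 2 ^ (t - 3) then ℓ
  else if ℓ ≤ 5 * 2 ^ (t - 2) - 2 then ℓ + 1
  else if ℓ ≤ 5 * 2 ^ (t - 1) - 4 then ℓ + 2
  else ℓ + 1 + (ℓ - 2 ^ (t - 1) - 1) / (2 ^ t - 2)

theorem value (t ℓ : ℕ) (ht : 3 ≤ t) (hℓ : 3 ≤ ℓ) :
    ¬ Bad t ℓ (cycleValue t ℓ) ∧ ∀ n, n < cycleValue t ℓ → Bad t ℓ n := by
  have main : ∃ m, cycleValue t ℓ = m + 1 ∧ ¬ Bad t ℓ (m + 1) ∧ Bad t ℓ m := by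
    unfold cycleValue
    have hp3 : 1 ≤ 2 ^ (t-3) := Nat.one_le_two_pow
    have e2 : 2 ^ (t-2) = 2 * 2 ^ (t-3) := by
      rw [show t - 2 = (t-3) + 1 by omega, pow_succ]; ring
    have e1 : 2 ^ (t-1) = 4 * 2 ^ (t-3) := by
      rw [show t - 1 = (t-3) + 1 + 1 by omega, pow_succ, pow_succ]; ring
    have e0 : 2 ^ t = 8 * 2 ^ (t-3) := by
      conv_lhs => rw [show t = (t-3) + 1 + 1 + 1 by omega, pow_succ, pow_succ, pow_succ]
      ring
    by_cases h33 : t = 3 ∧ ℓ = 3
    · rw [if_pos h33]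
      obtain ⟨rfl, rfl⟩ := h33
      exact ⟨4, rfl, not_bad_335, bad_334⟩
    · rw [if_neg h33]
      by_cases c1 : ℓ ≤ 3 * 2 ^ (t - 3)
      · rw [if_pos c1]
        refine ⟨ℓ - 1, by omega, ?_, bad_small (by omega) (by omega)⟩
        rw [show ℓ - 1 + 1 = ℓ by omega]
        have ht4 : 4 ≤ t := by
          by_contra hlt
          have : t = 3 := by omega
          subst this
          norm_num at c1
          omega
        by_cases hℓ4 : 4 ≤ ℓ
        · intro hb
          have := (upper_col (d := 0) ht (fun _ => ht4) hℓ4 hb).1 rfl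
          omega
        · have : ℓ = 3 := by omega
          subst this
          exact not_bad_three t ht4
      · rw [if_neg c1]
        have hℓ4 : 4 ≤ ℓ := by omega
        by_cases c2 : ℓ ≤ 5 * 2 ^ (t - 2) - 2
        · rw [if_pos c2]
          refine ⟨ℓ, rfl, ?_, bad_zero t ℓ ht hℓ (fun _ => by omega)⟩
          intro hb
          have := (upper_col (d := 1) ht (fun h => by omega) hℓ4 hb).2.1 rfl
          omega
        · rw [if_neg c2]
          by_cases c3 : ℓ ≤ 5 * 2 ^ (t - 1) - 4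
          · rw [if_pos c3]
            refine ⟨ℓ + 1, rfl, ?_, bad_one t ℓ ht (by omega)⟩
            intro hb
            have := (upper_col (d := 2) ht (fun h => by omega) hℓ4 hb).2.2 le_rfl
            omega
          · rw [if_neg c3]
            set D := 2 ^ t - 2 with hD
            set q := (ℓ - 2 ^ (t-1) - 1) / D with hq
            have hDpos : 0 < D := by omega
            have hq1 : q * D ≤ ℓ - 2 ^ (t-1) - 1 := Nat.div_mul_le_self _ _
            have hq2 : ℓ - 2 ^ (t-1) - 1 < (q + 1) * D := by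
              rw [mul_comm]
              exact Nat.lt_mul_div_succ _ hDpos
            have hq3 : 1 ≤ q := by
              rw [hq, Nat.one_le_div_iff hDpos]
              omega
            refine ⟨ℓ + q, by omega, ?_, ?_⟩
            · intro hb
              rw [add_assoc] at hb
              have := (upper_col (d := q + 1) ht (fun h => by omega) hℓ4 hb).2.2 (by omega)
              have e : (q + 1) * D + 2 * (q + 1) = 2 ^ (t-1) * (2 * (q+1)) := by
                have : D + 2 = 2 * 2 ^ (t-1) := by omega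
                calc (q + 1) * D + 2 * (q + 1) = (q+1) * (D + 2) := by ring
                  _ = 2 ^ (t-1) * (2 * (q+1)) := by rw [this]; ring
              have e' : 2 ^ (t-1) * (2 * (q+1) + 1) = (q + 1) * D + 2 * (q + 1) + 2 ^ (t-1) := by
                rw [e]; ring
              rw [e'] at this
              omega
            · apply bad_general t ℓ q (by omega)
              have e : q * D + 2 * q = 2 ^ (t-1) * (2 * q) := by
                have : D + 2 = 2 * 2 ^ (t-1) := by omega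
                calc q * D + 2 * q = q * (D + 2) := by ring
                  _ = 2 ^ (t-1) * (2 * q) := by rw [this]; ring
              have e' : 2 ^ (t-1) * (2 * q + 1) = q * D + 2 * q + 2 ^ (t-1) := by
                rw [e]; ring
              rw [e']
              omega
  obtain ⟨m, h1, h2, h3⟩ := main
  rw [h1]
  exact ⟨h2, fun n hn => bad_mono h3 (by omega)⟩

end R72.Cyc
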