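import Pool.Agent.R72.Cyc.Closure

open Finset
open scoped Classical

namespace R72.Cyc

theorem exists_lowest {V : Type*} (W : Finset V) (h : V → ℕ) :
    ∀ d, d ≤ W.card → ∃ D ⊆ W, D.card = d ∧ ∀ x ∈ D, ∀ y ∈ W, y ∉ D → h x ≤ h y := by
  intro d
  induction d with
  | zero => intro _; exact ⟨∅, empty_subset _, rfl, by simp⟩
  | succ d ih =>
    intro hd
    obtain ⟨D, hDW, hDc, hD⟩ := ih (by omega)
    have hne : (W \ D).Nonempty := by
      rw [← card_pos, card_sdiff_of_subset hDW]; omega
    obtain ⟨y0, hy0, hmin⟩ := exists_min_image (W \ D) h hne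
    rw [mem_sdiff] at hy0
    refine ⟨insert y0 D, ?_, ?_, ?_⟩
    · intro x hx
      rcases mem_insert.1 hx with rfl | hx
      · exact hy0.1
      · exact hDW hx
    · rw [card_insert_of_notMem hy0.2, hDc]
    · intro x hx y hy hyD
      rw [mem_insert, not_or] at hyD
      rcases mem_insert.1 hx with rfl | hx
      · exact hmin y (mem_sdiff.2 ⟨hy, hyD.2⟩)
      · exact hD x hx y hy hyD.2

theorem sum_bound {V : Type*} (W : Finset V) (h : V → ℕ) (c k M : ℕ) (hk : k ≤ M)
    (hM : ∀ w ∈ W, h w ≤ M) (hc : c ≤ (W.filter (fun w => h w ≤ k)).card) :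
    ((∑ w ∈ W, h w : ℕ) : ℤ) ≤ c * k + ((W.card : ℤ) - c) * M := by
  have h1 : ∑ w ∈ W, h w = ∑ w ∈ W.filter (fun w => h w ≤ k), h w +
      ∑ w ∈ W.filter (fun w => ¬ h w ≤ k), h w := (sum_filter_add_sum_filter_not _ _ _).symm
  have h2 : ∑ w ∈ W.filter (fun w => h w ≤ k), h w ≤ (W.filter (fun w => h w ≤ k)).card * k := by
    rw [← smul_eq_mul]
    apply sum_le_card_nsmul
    intro x hx; exact (mem_filter.1 hx).2
  have h3 : ∑ w ∈ W.filter (fun w => ¬ h w ≤ k), h w ≤
      (W.filter (fun w => ¬ h w ≤ k)).card * M := by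
    rw [← smul_eq_mul]
    apply sum_le_card_nsmul
    intro x hx; exact hM x (mem_filter.1 hx).1
  have h4 : (W.filter (fun w => h w ≤ k)).card + (W.filter (fun w => ¬ h w ≤ k)).card = W.card :=
    card_filter_add_card_filter_not _
  set p := (W.filter (fun w => h w ≤ k)).card
  set r := (W.filter (fun w => ¬ h w ≤ k)).card
  rw [h1]
  have h5 : (∑ w ∈ W.filter (fun w => h w ≤ k), h w + ∑ w ∈ W.filter (fun w => ¬ h w ≤ k), h w : ℕ)
      ≤ p * k + r * M := by omega
  have h6 : ((∑ w ∈ W.filter (fun w => h w ≤ k), h w + ∑ w ∈ W.filter (fun w => ¬ h w ≤ k), h w : ℕ) : ℤ)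
      ≤ p * k + r * M := by exact_mod_cast h5
  refine le_trans h6 ?_
  have h7 : (W.card : ℤ) = p + r := by exact_mod_cast h4.symm
  rw [h7]
  have h8 : (0:ℤ) ≤ ((p:ℤ) - c) * ((M:ℤ) - k) := by
    apply mul_nonneg
    · have : (c:ℤ) ≤ p := by exact_mod_cast hc
      linarith
    · have : (k:ℤ) ≤ M := by exact_mod_cast hk
      linarith
  nlinarith

variable {V : Type*} [Fintype V]

/-- number of neighbours outside `W` -/
noncomputable def ho (H : SimpleGraph V) (W : Finset V) (w : V) : ℕ :=
  (univ.filter (fun x => x ∉ W ∧ H.Adj w x)).card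

theorem ho_le_dg (H : SimpleGraph V) (W : Finset V) (w : V) : ho H W w ≤ dg H w := by
  apply card_le_card
  intro x hx
  simp only [mem_filter, mem_univ, true_and] at hx ⊢
  exact hx.2

theorem obst (H : SimpleGraph V) (W : Finset V) (d ℓ : ℕ) (hn : Fintype.card V = ℓ + d)
    (hℓ : 3 ≤ ℓ) (hK : ∀ x y, x ∉ W → y ∉ W → x ≠ y → H.Adj x y)
    (hno : ¬ HasCyc H.Adj ℓ) :
    ∃ k, 1 ≤ k ∧ k + d ≤ (W.filter (fun w => ho H W w ≤ k)).card ∧
      (2 * W.card = ℓ + 2 * d → k + W.card < ℓ + d) := by
  have hWc : (Wᶜ : Finset V).card + W.card = ℓ + d := by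
    rw [← hn]; rw [card_compl]; have := card_le_univ W; omega
  -- Step A
  have hA : d + 1 ≤ W.card := by
    by_contra hlt
    obtain ⟨S, hSW, hSc⟩ := exists_subset_card_eq (show ℓ ≤ (Wᶜ : Finset V).card by omega)
    obtain ⟨k, hk1, hk2, hk3⟩ := posa_rel H S (by omega) (by rw [hSc]; exact hno)
    have hemp : S.filter (fun v => (S.filter (fun w => H.Adj v w)).card ≤ k) = ∅ := by
      rw [filter_eq_empty_iff]
      intro v hv hle
      have hsub : S.erase v ⊆ S.filter (fun w => H.Adj v w) := by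
        intro w hw
        rw [mem_erase] at hw
        rw [mem_filter]
        exact ⟨hw.2, hK v w (mem_compl.1 (hSW hv)) (mem_compl.1 (hSW hw.2)) hw.1.symm⟩
      have := card_le_card hsub
      rw [card_erase_of_mem hv] at this
      omega
    rw [hemp] at hk3
    simp at hk3
    omega
  obtain ⟨D, hDW, hDc, hD⟩ := exists_lowest W (ho H W) d (by omega)
  have hWD : (W \ D).Nonempty := by
    rw [← card_pos, card_sdiff_of_subset hDW]; omega
  obtain ⟨H', hH'⟩ : ∃ H' : SimpleGraph V, ∀ x y, H'.Adj x y ↔ (H.Adj x y ∧ ¬ (x ∈ W ∧ y ∈ W)) :=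
    ⟨{ Adj := fun x y => H.Adj x y ∧ ¬ (x ∈ W ∧ y ∈ W)
       symm := ⟨fun x y h => ⟨h.1.symm, fun hh => h.2 ⟨hh.2, hh.1⟩⟩⟩
       loopless := ⟨fun x h => H.loopless.irrefl x h.1⟩ }, fun _ _ => Iff.rfl⟩
  have hSc : (Dᶜ : Finset V).card = ℓ := by
    rw [card_compl]; omega
  obtain ⟨k, hk1, hk2, hk3⟩ := posa_rel H' Dᶜ (by omega) (by
    rw [hSc]; intro hc; exact hno (hc.mono (fun x y h => ((hH' x y).1 h).1)))
  rw [hSc] at hk2
  set dg' : V → ℕ := fun v => (Dᶜ.filter (fun w => H'.Adj v w)).card with hdg'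
  have hdW : ∀ w ∈ W, dg' w = ho H W w := by
    intro w hw
    show (Dᶜ.filter (fun y => H'.Adj w y)).card = (univ.filter (fun x => x ∉ W ∧ H.Adj w x)).card
    congr 1
    ext y
    simp only [mem_filter, mem_compl, mem_univ, true_and, hH']
    constructor
    · rintro ⟨_, h1, h2⟩
      exact ⟨fun hy => h2 ⟨hw, hy⟩, h1⟩
    · rintro ⟨h1, h2⟩
      exact ⟨fun hy => h1 (hDW hy), h2, fun hh => h1 hh.2⟩
  have hdK : ∀ x, x ∉ W → (Wᶜ : Finset V).card ≤ dg' x + 1 := by
    intro x hx
    have hsub : (Wᶜ : Finset V).erase x ⊆ Dᶜ.filter (fun w => H'.Adj x w) := by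
      intro y hy
      rw [mem_erase, mem_compl] at hy
      rw [mem_filter, mem_compl]
      exact ⟨fun hh => hy.2 (hDW hh), (hH' _ _).2 ⟨hK x y hx hy.2 hy.1.symm, fun hh => hx hh.1⟩⟩
    have := card_le_card hsub
    rw [card_erase_of_mem (mem_compl.2 hx)] at this
    show _ ≤ (Dᶜ.filter (fun w => H'.Adj x w)).card + 1
    omega
  have hdK2 : ∀ x, x ∉ W → ∀ w ∈ W, w ∉ D → H.Adj x w → (Wᶜ : Finset V).card ≤ dg' x := by
    intro x hx w hw hwD hadj
    have hsub : insert w ((Wᶜ : Finset V).erase x) ⊆ Dᶜ.filter (fun w => H'.Adj x w) := by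
      intro y hy
      rw [mem_insert] at hy
      rw [mem_filter, mem_compl]
      rcases hy with rfl | hy
      · exact ⟨hwD, (hH' _ _).2 ⟨hadj, fun hh => hx hh.1⟩⟩
      · rw [mem_erase, mem_compl] at hy
        exact ⟨fun hh => hy.2 (hDW hh), (hH' _ _).2 ⟨hK x y hx hy.2 hy.1.symm, fun hh => hx hh.1⟩⟩
    have := card_le_card hsub
    rw [card_insert_of_notMem (by simp [hw]), card_erase_of_mem (mem_compl.2 hx)] at this
    have h2 : 0 < (Wᶜ : Finset V).card := card_pos.2 ⟨x, mem_compl.2 hx⟩
    show _ ≤ (Dᶜ.filter (fun w => H'.Adj x w)).card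
    omega
  have hhoK : ∀ w, ho H W w ≤ (Wᶜ : Finset V).card := by
    intro w
    apply card_le_card
    intro x hx
    simp only [mem_filter, mem_univ, true_and] at hx
    exact mem_compl.2 hx.1
  by_cases hcase : ∃ x, x ∉ W ∧ dg' x ≤ k
  · obtain ⟨x, hxW, hxk⟩ := hcase
    have h1 := hdK x hxW
    by_cases hs1 : ℓ + 2 * d + 1 ≤ 2 * W.card
    · refine ⟨W.card - d, by omega, ?_, by omega⟩
      have : W.filter (fun w => ho H W w ≤ W.card - d) = W := by
        rw [filter_eq_self]
        intro w _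
        have := hhoK w
        omega
      rw [this]; omega
    · by_cases hs2 : 2 * W.card = ℓ + 2 * d
      · refine ⟨k, hk1, ?_, by omega⟩
        have hx2 : ∀ w ∈ W, w ∉ D → ho H W w ≤ k := by
          intro w hw hwD
          have hna : ¬ H.Adj x w := by
            intro hadj
            have := hdK2 x hxW w hw hwD hadj
            omega
          have hsub : univ.filter (fun y => y ∉ W ∧ H.Adj w y) ⊆ (Wᶜ : Finset V).erase x := by
            intro y hy
            simp only [mem_filter, mem_univ, true_and] at hy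
            rw [mem_erase, mem_compl]
            exact ⟨fun hh => hna (hh ▸ hy.2.symm), hy.1⟩
          have := card_le_card hsub
          rw [card_erase_of_mem (mem_compl.2 hxW)] at this
          show (univ.filter (fun y => y ∉ W ∧ H.Adj w y)).card ≤ k
          omega
        have : W.filter (fun w => ho H W w ≤ k) = W := by
          rw [filter_eq_self]
          intro w hw
          by_cases hwD : w ∈ D
          · obtain ⟨y, hy⟩ := hWD
            rw [mem_sdiff] at hy
            exact le_trans (hD w hwD y hy.1 hy.2) (hx2 y hy.1 hy.2)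
          · exact hx2 w hw hwD
        rw [this]; omega
      · -- 2s = ℓ + 2d - 1
        have hk' : k = W.card - d := by omega
        refine ⟨k, hk1, ?_, by omega⟩
        have : W.filter (fun w => ho H W w ≤ k) = W := by
          rw [filter_eq_self]
          intro w hw
          by_contra hbig
          obtain ⟨w1, hw1, hw1D, hw1b⟩ : ∃ w1 ∈ W, w1 ∉ D ∧ k < ho H W w1 := by
            by_cases hwD : w ∈ D
            · obtain ⟨y, hy⟩ := hWD
              rw [mem_sdiff] at hy
              exact ⟨y, hy.1, hy.2, by have := hD w hwD y hy.1 hy.2; omega⟩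
            · exact ⟨w, hw, hwD, by omega⟩
          have hadj : H.Adj x w1 := by
            by_contra hna
            have hsub : univ.filter (fun y => y ∉ W ∧ H.Adj w1 y) ⊆ (Wᶜ : Finset V).erase x := by
              intro y hy
              simp only [mem_filter, mem_univ, true_and] at hy
              rw [mem_erase, mem_compl]
              exact ⟨fun hh => hna (hh ▸ hy.2.symm), hy.1⟩
            have := card_le_card hsub
            rw [card_erase_of_mem (mem_compl.2 hxW)] at this
            have h5 : k < (univ.filter (fun y => y ∉ W ∧ H.Adj w1 y)).card := hw1b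
            omega
          have := hdK2 x hxW w1 hw1 hw1D hadj
          omega
        rw [this]; omega
  · push Not at hcase
    refine ⟨k, hk1, ?_, by omega⟩
    set low := (W \ D).filter (fun w => ho H W w ≤ k) with hlow
    have hlc : k ≤ low.card := by
      refine le_trans hk3 (card_le_card ?_)
      intro v hv
      rw [mem_filter, mem_compl] at hv
      by_cases hvW : v ∈ W
      · rw [hlow, mem_filter, mem_sdiff]
        refine ⟨⟨hvW, hv.1⟩, ?_⟩
        rw [← hdW v hvW]; exact hv.2
      · have := hcase v hvW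
        exact absurd hv.2 (not_le.2 this)
    obtain ⟨w1, hw1⟩ := card_pos.1 (show 0 < low.card by omega)
    rw [hlow, mem_filter, mem_sdiff] at hw1
    have hdisj : Disjoint D low := by
      rw [Finset.disjoint_left]
      intro y hy hy2
      rw [hlow, mem_filter, mem_sdiff] at hy2
      exact hy2.1.2 hy
    have hsub2 : D ∪ low ⊆ W.filter (fun w => ho H W w ≤ k) := by
      intro y hy
      rw [mem_union] at hy
      rw [mem_filter]
      rcases hy with hy | hy
      · exact ⟨hDW hy, le_trans (hD y hy w1 hw1.1.1 hw1.1.2) hw1.2⟩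
      · rw [hlow, mem_filter, mem_sdiff] at hy
        exact ⟨hy.1.1, hy.2⟩
    have := card_le_card hsub2
    rw [card_union_of_disjoint hdisj] at this
    omega

end R72.Cyc
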